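import Mathlib
import Pool.Agent.Lib.SymZF.RO
import Pool.Agent.Lib.MP_c00cb7_lc.KBor

/-!
# The algebra of measurable sets modulo a σ-ideal with the countable chain condition
-/

set_option autoImplicit false

open Set

namespace Pool.Agent.Lib.RM48

open Pool.Agent.Lib.SymZF Pool.Agent.Lib.KZF

/-- the null sets of a filter: the sets whose complement is in the filter -/
def Nl {Ω : Type} (F : Filter Ω) (A : Set Ω) : Prop := Aᶜ ∈ F

section nl
variable {Ω : Type} {F : Filter Ω} {A A' : Set Ω}

lemma Nl.mono (h : Nl F A) (h' : A' ⊆ A) : Nl F A' :=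
  Filter.mem_of_superset h (compl_subset_compl.2 h')

lemma Nl.union (h : Nl F A) (h' : Nl F A') : Nl F (A ∪ A') := by
  unfold Nl
  rw [compl_union]
  exact Filter.inter_mem h h'

lemma Nl.iUnion [CountableInterFilter F] {A : ℕ → Set Ω} (h : ∀ n, Nl F (A n)) :
    Nl F (⋃ n, A n) := by
  unfold Nl
  rw [compl_iUnion]
  exact countable_iInter_mem.2 h

lemma nl_empty : Nl F ∅ := by
  unfold Nl
  rw [compl_empty]
  exact Filter.univ_mem

end nl

/-- The conditions: measurable sets which are not null, ordered by inclusion modulo null sets. -/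
structure Pos (Ω : Type) [MeasurableSpace Ω] (F : Filter Ω) where
  /-- the set -/
  s : Set Ω
  meas : MeasurableSet s
  pos : ¬ Nl F s

section

variable {Ω : Type} [MeasurableSpace Ω] {F : Filter Ω}

instance : Preorder (Pos Ω F) where
  le p q := Nl F (p.s \ q.s)
  le_refl p := by rw [diff_self]; exact nl_empty
  le_trans p q r h1 h2 := (h1.union h2).mono (by
    intro x hx
    by_cases h : x ∈ q.s
    · exact Or.inr ⟨h, hx.2⟩
    · exact Or.inl ⟨hx.1, h⟩)

lemma Pos.le_def (p q : Pos Ω F) : p ≤ q ↔ Nl F (p.s \ q.s) := Iff.rfl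

/-- the conditions below a set -/
def lset (F : Filter Ω) (A : Set Ω) : LowerSet (Pos Ω F) where
  carrier := {p | Nl F (p.s \ A)}
  lower' := by
    intro p q hqp hp
    refine (Nl.union hqp hp).mono ?_
    intro x hx
    by_cases h : x ∈ p.s
    · exact Or.inr ⟨h, hx.2⟩
    · exact Or.inl ⟨hx.1, h⟩

lemma mem_lset {A : Set Ω} {p : Pos Ω F} : p ∈ lset F A ↔ Nl F (p.s \ A) := Iff.rfl

lemma compl_lset {A : Set Ω} (hA : MeasurableSet A) : (lset F A)ᶜ = lset F Aᶜ := by
  ext p
  change p ∈ (lset F A)ᶜ ↔ p ∈ lset F Aᶜ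
  rw [mem_compl_iff', mem_lset]
  constructor
  · intro h
    by_contra hcon
    have h1 : ¬ Nl F (p.s ∩ A) := by
      intro h2
      exact hcon (h2.mono (by intro x hx; exact ⟨hx.1, not_not.1 hx.2⟩))
    refine h ⟨p.s ∩ A, p.meas.inter hA, h1⟩ ?_ ?_
    · rw [Pos.le_def]
      exact nl_empty.mono (by intro x hx; exact (hx.2 hx.1.1).elim)
    · rw [mem_lset]
      exact nl_empty.mono (by intro x hx; exact (hx.2 hx.1.2).elim)
  · intro h q hq hqA
    rw [mem_lset] at hqA
    rw [Pos.le_def] at hq
    refine q.pos ((hq.union (hqA.union h)).mono ?_)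
    intro x hx
    by_cases h1 : x ∈ p.s
    · by_cases h2 : x ∈ A
      · exact Or.inr (Or.inr ⟨h1, fun h3 => h3 h2⟩)
      · exact Or.inr (Or.inl ⟨hx, h2⟩)
    · exact Or.inl ⟨hx, h1⟩

/-- the element of the algebra given by a measurable set -/
noncomputable def el (F : Filter Ω) (A : Set Ω) : RO (Pos Ω F) :=
  Heyting.Regular.toRegular (lset F A)

lemma el_val {A : Set Ω} (hA : MeasurableSet A) : (el F A).val = lset F A := by
  change (el F A : LowerSet (Pos Ω F)) = lset F A
  rw [el, Heyting.Regular.coe_toRegular, compl_lset hA, compl_lset hA.compl, compl_compl]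

lemma el_compl {A : Set Ω} (hA : MeasurableSet A) : el F Aᶜ = (el F A)ᶜ := by
  apply Heyting.Regular.coe_injective
  rw [Heyting.Regular.coe_compl]
  change (el F Aᶜ).val = (el F A).valᶜ
  rw [el_val hA, el_val hA.compl, compl_lset hA]

lemma el_le_iff {A A' : Set Ω} (hA : MeasurableSet A) (hA' : MeasurableSet A') :
    el F A ≤ el F A' ↔ Nl F (A \ A') := by
  rw [← Heyting.Regular.coe_le_coe]
  change (el F A).val ≤ (el F A').val ↔ _
  rw [el_val hA, el_val hA']
  constructor
  · intro h
    by_contra hcon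
    have h1 : (⟨A \ A', hA.diff hA', hcon⟩ : Pos Ω F) ∈ lset F A' := h (by
      change _ ∈ lset F A
      rw [mem_lset]
      exact nl_empty.mono (by intro x hx; exact (hx.2 hx.1.1).elim))
    rw [mem_lset] at h1
    exact hcon (h1.mono (by intro x hx; exact ⟨hx, hx.2⟩))
  · intro h p hp
    change p ∈ lset F A'
    have hp' : Nl F (p.s \ A) := hp
    rw [mem_lset]
    refine (hp'.union h).mono ?_
    intro x hx
    by_cases h1 : x ∈ A
    · exact Or.inr ⟨h1, hx.2⟩
    · exact Or.inl ⟨hx.1, h1⟩

lemma el_univ : el F univ = ⊤ := by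
  rw [eq_top_iff, ← Heyting.Regular.coe_le_coe]
  change (⊤ : LowerSet (Pos Ω F)) ≤ (el F univ).val
  rw [el_val MeasurableSet.univ]
  intro p _
  change p ∈ lset F univ
  rw [mem_lset]
  exact nl_empty.mono (by intro x hx; exact (hx.2 trivial).elim)

lemma el_empty : el F ∅ = ⊥ := by
  rw [← compl_univ, el_compl MeasurableSet.univ, el_univ, compl_top]

lemma el_eq_bot {A : Set Ω} (hA : MeasurableSet A) : el F A = ⊥ ↔ Nl F A := by
  rw [← le_bot_iff, ← el_empty, el_le_iff hA MeasurableSet.empty, diff_empty]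

lemma el_eq_top {A : Set Ω} (hA : MeasurableSet A) : el F A = ⊤ ↔ A ∈ F := by
  rw [eq_top_iff, ← el_univ, el_le_iff MeasurableSet.univ hA, ← compl_eq_univ_diff]
  unfold Nl
  rw [compl_compl]

instance [CountableInterFilter F] [F.NeBot] : Nontrivial (RO (Pos Ω F)) := by
  refine ⟨⟨⊥, ⊤, fun h => ?_⟩⟩
  rw [← el_empty, el_eq_top MeasurableSet.empty] at h
  exact Filter.empty_notMem F h

variable [CountableInterFilter F]

lemma el_iInter {A : ℕ → Set Ω} (hA : ∀ n, MeasurableSet (A n)) :
    el F (⋂ n, A n) = ⨅ n, el F (A n) := by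
  apply le_antisymm
  · refine le_iInf fun n => (el_le_iff (MeasurableSet.iInter hA) (hA n)).2 ?_
    exact nl_empty.mono (by intro x hx; exact (hx.2 (mem_iInter.1 hx.1 n)).elim)
  · rw [← Heyting.Regular.coe_le_coe]
    intro p hp
    have h1 : ∀ n, p ∈ lset F (A n) := by
      intro n
      have h2 : p ∈ (el F (A n)).val :=
        (Heyting.Regular.coe_le_coe.2 (iInf_le (fun n => el F (A n)) n)) hp
      rwa [el_val (hA n)] at h2
    change p ∈ (el F (⋂ n, A n)).val
    rw [el_val (MeasurableSet.iInter hA), mem_lset]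
    have h2 : p.s \ ⋂ n, A n = ⋃ n, p.s \ A n := by
      rw [diff_iInter]
    rw [h2]
    exact Nl.iUnion h1

lemma el_iUnion {A : ℕ → Set Ω} (hA : ∀ n, MeasurableSet (A n)) :
    el F (⋃ n, A n) = ⨆ n, el F (A n) := by
  have h1 : (⋃ n, A n) = (⋂ n, (A n)ᶜ)ᶜ := by rw [compl_iInter]; simp
  rw [h1, el_compl (MeasurableSet.iInter fun n => (hA n).compl), el_iInter fun n => (hA n).compl,
    compl_iInf]
  refine iSup_congr fun n => ?_
  rw [el_compl (hA n), compl_compl]

lemma el_inter {A A' : Set Ω} (hA : MeasurableSet A) (hA' : MeasurableSet A') :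
    el F (A ∩ A') = el F A ⊓ el F A' := by
  have h1 : A ∩ A' = ⋂ n : ℕ, (if n = 0 then A else A') := by
    ext x
    simp only [mem_inter_iff, mem_iInter]
    constructor
    · rintro ⟨h1, h2⟩ n
      split_ifs <;> assumption
    · intro h
      have h0 := h 0
      have h1 := h 1
      simp at h0 h1
      exact ⟨h0, h1⟩
  have hm : ∀ n : ℕ, MeasurableSet (if n = 0 then A else A') := by
    intro n
    split_ifs <;> assumption
  rw [h1, el_iInter hm]
  apply le_antisymm
  · refine le_inf ?_ ?_
    · exact (iInf_le _ 0).trans (by simp)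
    · exact (iInf_le _ 1).trans (by simp)
  · refine le_iInf fun n => ?_
    split_ifs
    · exact inf_le_left
    · exact inf_le_right

variable (Ω F) in
/-- the countable chain condition -/
def CCF : Prop := ∀ (I : Type) (A : I → Set Ω), (∀ i, MeasurableSet (A i)) →
  (∀ i, ¬ Nl F (A i)) → (∀ i j, i ≠ j → Nl F (A i ∩ A j)) → Countable I

/-- Every element of the algebra is given by a measurable set. -/
theorem exists_el (hc : CCF Ω F) (b : RO (Pos Ω F)) : ∃ A, MeasurableSet A ∧ el F A = b := by
  classical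
  -- a maximal antichain below b
  let 𝓐 : Set (Set (Pos Ω F)) := {X | (∀ p ∈ X, p ∈ b.val) ∧
    ∀ p ∈ X, ∀ q ∈ X, p ≠ q → Nl F (p.s ∩ q.s)}
  obtain ⟨X, hX⟩ : ∃ X, Maximal (· ∈ 𝓐) X := by
    refine zorn_subset 𝓐 ?_
    intro c hc hch
    refine ⟨⋃₀ c, ⟨?_, ?_⟩, fun s hs => subset_sUnion_of_mem hs⟩
    · rintro p ⟨Y, hY, hp⟩
      exact (hc hY).1 p hp
    · rintro p ⟨Y, hY, hp⟩ q ⟨Z, hZ, hq⟩ hne
      rcases hch.total hY hZ with h | h
      · exact (hc hZ).2 p (h hp) q hq hne
      · exact (hc hY).2 p hp q (h hq) hne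
  have hXc : Countable X := by
    refine hc X (fun p => p.1.s) (fun p => p.1.meas) (fun p => p.1.pos) ?_
    intro p q hne
    exact hX.prop.2 p.1 p.2 q.1 q.2 (fun h => hne (Subtype.ext h))
  let A : Set Ω := ⋃ p : X, p.1.s
  have hA : MeasurableSet A := MeasurableSet.iUnion fun p => p.1.meas
  refine ⟨A, hA, le_antisymm ?_ ?_⟩
  · -- every condition below A meets one of the p
    have h0 : el F A ≤ ⨆ p : X, el F p.1.s := by
      rcases isEmpty_or_nonempty X with hE | hN
      · have : A = ∅ := by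
          simp [A]
        rw [this, el_empty]
        exact bot_le
      · obtain ⟨g, hg⟩ := exists_surjective_nat X
        have h1 : A = ⋃ n, (g n).1.s := (hg.iUnion_comp fun p : X => p.1.s).symm
        rw [h1, el_iUnion fun n => (g n).1.meas]
        exact iSup_le fun n => le_iSup (fun p : X => el F p.1.s) (g n)
    refine h0.trans (iSup_le fun p => ?_)
    have h2 : el F p.1.s ≤ emb p.1 := by
      rw [← Heyting.Regular.coe_le_coe]
      change (el F p.1.s).val ≤ (emb p.1).val
      rw [el_val p.1.meas]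
      intro q hq
      exact (emb p.1).val.lower (show q ≤ p.1 from hq) (self_mem_emb p.1)
    exact h2.trans (emb_le_iff.2 (hX.prop.1 p.1 p.2))
  · rw [← Heyting.Regular.coe_le_coe]
    intro q hq
    change q ∈ (el F A).val
    rw [el_val hA, mem_lset]
    by_contra hcon
    let r : Pos Ω F := ⟨q.s \ A, q.meas.diff hA, hcon⟩
    have hrq : r ≤ q := by
      rw [Pos.le_def]
      exact nl_empty.mono (by intro x hx; exact (hx.2 hx.1.1).elim)
    have hr : r ∈ b.val := b.val.lower hrq hq
    have hins : insert r X ∈ 𝓐 := by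
      refine ⟨?_, ?_⟩
      · intro p hp
        rcases mem_insert_iff.1 hp with rfl | hp
        · exact hr
        · exact hX.prop.1 p hp
      · have key : ∀ p ∈ X, Nl F (r.s ∩ p.s) := by
          intro p hp
          refine nl_empty.mono ?_
          rintro x ⟨hx1, hx2⟩
          exact (hx1.2 (mem_iUnion.2 ⟨⟨p, hp⟩, hx2⟩)).elim
        intro p hp p' hp' hne
        rcases mem_insert_iff.1 hp with rfl | hp
        · rcases mem_insert_iff.1 hp' with rfl | hp'
          · exact (hne rfl).elim
          · exact key p' hp'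
        · rcases mem_insert_iff.1 hp' with rfl | hp'
          · rw [inter_comm]; exact key p hp
          · exact hX.prop.2 p hp p' hp' hne
    have h1 : r ∈ X := hX.le_of_ge hins (subset_insert r X) (mem_insert r X)
    refine r.pos (nl_empty.mono ?_)
    intro x hx
    exact (hx.2 (mem_iUnion.2 ⟨⟨r, h1⟩, hx⟩)).elim

/-- Borel codes: the Boolean value is given by the set of points where the predicate holds. -/
theorem bs_el (φ : BF) (A : ℕ → Set Ω) (hA : ∀ n, MeasurableSet (A n)) :
    MeasurableSet {z | φ.sem (fun n => z ∈ A n)} ∧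
      φ.bs (fun n => el F (A n)) = el F {z | φ.sem (fun n => z ∈ A n)} := by
  induction φ with
  | atm n => exact ⟨hA n, rfl⟩
  | neg φ ih =>
    refine ⟨ih.1.compl, ?_⟩
    simp only [BF.bs, BF.sem]
    rw [ih.2, ← el_compl ih.1]
    rfl
  | sup f ih =>
    have h1 : {z | (BF.sup f).sem (fun n => z ∈ A n)} =
        ⋃ n, {z | (f n).sem (fun n => z ∈ A n)} := by
      ext z
      simp [BF.sem]
    rw [h1, el_iUnion fun n => (ih n).1]
    refine ⟨MeasurableSet.iUnion fun n => (ih n).1, ?_⟩
    simp only [BF.bs]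
    exact iSup_congr fun n => (ih n).2

end

end Pool.Agent.Lib.RM48
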