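import Mathlib
import Pool.Agent.Lib.SymZF.IntDefs

/-!
# Definitions for models of set theory

`(M, E)` is a structure for the language of set theory (`E` is the membership relation).
`IsZF E` (all axioms of `ZF`) is defined in `Pool.Agent.Lib.SymZF.ZF`; the elementary notions
`Rel E r x y` (`(x, y) ∈ r`), `IsOmega E w` (`w = ω`, the least inductive set) and `IsNum E n k`
(`k` is the natural number `n` of `M`) are defined in `Pool.Agent.Lib.SymZF.IntDefs`.
-/

set_option autoImplicit false

namespace Pool.Agent.Lib.RM48

open Pool.Agent.Lib.SymZF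

section

variable {M : Type} (E : M → M → Prop)

/-- The axiom of choice: every set of nonempty pairwise disjoint sets has a transversal. -/
def IsAC : Prop := ∀ X, (∀ x, E x X → ∃ y, E y x) →
  (∀ x y z, E x X → E y X → E z x → E z y → x = y) →
  ∃ T, ∀ x, E x X → ∃! y, E y x ∧ E y T

/-- `(M, E)` is a model of `ZFC`. -/
structure IsZFC : Prop where
  zf : IsZF E
  ac : IsAC E

/-- `x` is a real of `M`: a subset of `ω` -/
def IsReal (x : M) : Prop := ∃ w, IsOmega E w ∧ ∀ z, E z x → E z w

/-- The set of natural numbers given by `x`: the `n` such that the number `n` of `M` is in `x`. -/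
def rl (x : M) : Set ℕ := {n | ∃ z, IsNum E n z ∧ E z x}

end

end Pool.Agent.Lib.RM48
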