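import Mathlib
import Pool.Agent.Lib.SymZF.HSInf

/-!
# The full Boolean-valued model: mixing and fullness
-/

set_option autoImplicit false

open Set

namespace Pool.Agent.Lib.RM48

open Pool.Agent.Lib.SymZF Pool.Agent.Lib.SymZF.SymSys Name

/-- The system with the trivial group: all names over `B`. -/
noncomputable abbrev tS (B : Type) [CompleteBooleanAlgebra B] : SymSys where
  B := B
  G := Unit
  α := 1
  F := ⊤
  conj := fun _ => Filter.tendsto_top

variable {B : Type} [CompleteBooleanAlgebra B]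

/-- all names of the trivial system are hereditarily symmetric -/
lemma HS_triv (x : Name B) : (tS B).HS x := by
  induction x with
  | mk ι f b ih =>
    refine ⟨?_, ih⟩
    refine Filter.mem_top.2 ?_
    refine Set.eq_univ_of_forall fun g => ?_
    have hg : g = 1 := Subsingleton.elim (α := Unit) g 1
    subst hg
    change beq ((tS B).act 1 (.mk ι f b)) (.mk ι f b) = ⊤
    rw [act_one]
    exact beq_refl _

/-- a name as an element of the model -/
def mkH (x : Name B) : (tS B).HSet := ⟨x, HS_triv x⟩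

/-- the name with the elements `f i` and the values `b i` -/
def fm {I : Type} (f : I → (tS B).HSet) (b : I → B) : (tS B).HSet :=
  mkH (.mk I (fun i => (f i).1) b)

lemma mem_fm {I : Type} (f : I → (tS B).HSet) (b : I → B) (w : (tS B).HSet) :
    w.mem (fm f b) = ⨆ i, b i ⊓ w.eq (f i) := rfl

/-- Mixing. -/
theorem exists_mix {I : Type} (a : I → B) (ha : ∀ i j, i ≠ j → a i ⊓ a j = ⊥)
    (y : I → (tS B).HSet) : ∃ z : (tS B).HSet, ∀ i, a i ≤ z.eq (y i) := by
  let z : (tS B).HSet := fm (I := Σ i, (y i).idx) (fun s => (y s.1).el s.2)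
    (fun s => (y s.1).vl s.2 ⊓ a s.1)
  have hval : ∀ w : (tS B).HSet, w.mem z = ⨆ i, a i ⊓ w.mem (y i) := by
    intro w
    have h1 : w.mem z = ⨆ s : (Σ i, (y i).idx), ((y s.1).vl s.2 ⊓ a s.1) ⊓ w.eq ((y s.1).el s.2) :=
      rfl
    rw [h1, iSup_sigma]
    refine iSup_congr fun i => ?_
    rw [HSet.mem_eq w (y i), inf_iSup_eq]
    refine iSup_congr fun k => ?_
    rw [inf_comm ((y i).vl k), inf_assoc]
  refine ⟨z, fun i => HSet.le_eq (S := tS B) (fun w => ?_) (fun w => ?_)⟩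
  · rw [hval, inf_iSup_eq]
    refine iSup_le fun j => ?_
    by_cases h : i = j
    · subst h
      exact inf_le_right.trans inf_le_right
    · rw [← inf_assoc, ha i j h, bot_inf_eq]
      exact bot_le
  · rw [hval]
    exact le_iSup (fun i => a i ⊓ w.mem (y i)) i

/-- disjointification along a well-order -/
lemma iSup_disj {I : Type} [LinearOrder I] [WellFoundedLT I] (t : I → B) :
    ⨆ i, t i = ⨆ i, t i ⊓ (⨆ j : {j // j < i}, t j.1)ᶜ := by
  apply le_antisymm
  · refine iSup_le fun i => ?_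
    induction i using WellFoundedLT.induction with
    | ind i ih =>
      have h1 : (⨆ j : {j // j < i}, t j.1) ≤ ⨆ i, t i ⊓ (⨆ j : {j // j < i}, t j.1)ᶜ :=
        iSup_le fun j => ih j.1 j.2
      calc t i = t i ⊓ ((⨆ j : {j // j < i}, t j.1) ⊔ (⨆ j : {j // j < i}, t j.1)ᶜ) := by
            rw [sup_compl_eq_top, inf_top_eq]
        _ = t i ⊓ (⨆ j : {j // j < i}, t j.1) ⊔ t i ⊓ (⨆ j : {j // j < i}, t j.1)ᶜ := by
            rw [inf_sup_left]
        _ ≤ _ := sup_le (inf_le_right.trans h1)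
            (le_iSup (fun i => t i ⊓ (⨆ j : {j // j < i}, t j.1)ᶜ) i)
  · exact iSup_mono fun i => inf_le_left

lemma exists_disj {I : Type} (t : I → B) : ∃ a : I → B, (∀ i j, i ≠ j → a i ⊓ a j = ⊥) ∧
    (∀ i, a i ≤ t i) ∧ ⨆ i, t i = ⨆ i, a i := by
  classical
  let L : LinearOrder I := linearOrderOfSTO (WellOrderingRel (α := I))
  have W : WellFoundedLT I := ⟨show WellFounded (WellOrderingRel (α := I)) from
    (WellOrderingRel.isWellOrder (α := I)).wf⟩
  refine ⟨fun i => t i ⊓ (⨆ j : {j // j < i}, t j.1)ᶜ, ?_, fun i => inf_le_left, iSup_disj t⟩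
  have key : ∀ i j : I, i < j → (t i ⊓ (⨆ k : {k // k < i}, t k.1)ᶜ) ⊓
      (t j ⊓ (⨆ k : {k // k < j}, t k.1)ᶜ) = ⊥ := by
    intro i j hij
    rw [← le_bot_iff]
    have h1 : t i ⊓ (⨆ k : {k // k < i}, t k.1)ᶜ ≤ ⨆ k : {k // k < j}, t k.1 :=
      inf_le_left.trans (le_iSup (fun k : {k : I // k < j} => t k.1) ⟨i, hij⟩)
    have h2 : t j ⊓ (⨆ k : {k // k < j}, t k.1)ᶜ ≤ (⨆ k : {k // k < j}, t k.1)ᶜ := inf_le_right
    exact (inf_le_inf h1 h2).trans (by simp)
  intro i j hne
  rcases lt_or_gt_of_ne hne with h | h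
  · exact key i j h
  · rw [inf_comm]; exact key j i h

/-- Fullness (the maximum principle). -/
theorem exists_max (P : (tS B).HSet → B) (hP : ∀ x y : (tS B).HSet, x.eq y ⊓ P x ≤ P y) :
    ∃ z, P z = ⨆ x, P x := by
  classical
  choose y hy using fun i : {b : B // ∃ x, P x = b} => i.2
  obtain ⟨a, ha, ha1, ha2⟩ := exists_disj (fun i : {b : B // ∃ x, P x = b} => i.1)
  obtain ⟨z, hz⟩ := exists_mix a ha y
  refine ⟨z, le_antisymm (le_iSup P z) (iSup_le fun x => ?_)⟩
  have h1 : P x ≤ ⨆ i : {b : B // ∃ x, P x = b}, i.1 :=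
    le_iSup (fun i : {b : B // ∃ x, P x = b} => i.1) ⟨P x, x, rfl⟩
  refine h1.trans ?_
  rw [ha2]
  refine iSup_le fun i => ?_
  have h2 : a i ≤ (y i).eq z := by rw [HSet.eq_symm]; exact hz i
  have h3 : a i ≤ P (y i) := by rw [hy]; exact ha1 i
  exact (le_inf h2 h3).trans (hP _ _)

end Pool.Agent.Lib.RM48
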