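import Mathlib
import Pool.Agent.Lib.RM48.Triv
import Pool.Agent.Lib.MP_c00cb7_lc.KBor

/-!
# Formulas with predicates for reals
-/

set_option autoImplicit false

open Set

namespace Pool.Agent.Lib.RM48

open Pool.Agent.Lib.SymZF Pool.Agent.Lib.SymZF.SymSys Name Pool.Agent.Lib.KZF

/-- the join of two sequences -/
def jn {α : Type*} (x y : ℕ → α) (n : ℕ) : α := if n % 2 = 0 then x (n / 2) else y (n / 2)

/-- the even part -/
def evn {α : Type*} (x : ℕ → α) (n : ℕ) : α := x (2 * n)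

/-- the odd part -/
def odn {α : Type*} (x : ℕ → α) (n : ℕ) : α := x (2 * n + 1)

@[simp] lemma evn_jn {α : Type*} (x y : ℕ → α) : evn (jn x y) = x := by
  funext n; simp [evn, jn]

@[simp] lemma odn_jn {α : Type*} (x y : ℕ → α) : odn (jn x y) = y := by
  funext n
  have h1 : (2 * n + 1) % 2 = 1 := by omega
  have h2 : (2 * n + 1) / 2 = n := by omega
  simp [odn, jn, h1, h2]

/-- First-order formulas of the language of set theory with a predicate `real` and binary
predicates `bor k` for reals. -/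
inductive FmlX : Type
  | bot : FmlX
  | mem (i j : ℕ) : FmlX
  | eq (i j : ℕ) : FmlX
  | real (i : ℕ) : FmlX
  | bor (k i j : ℕ) : FmlX
  | imp (φ ψ : FmlX) : FmlX
  | all (φ : FmlX) : FmlX
deriving Countable

namespace FmlX

/-- negation -/
def neg (φ : FmlX) : FmlX := .imp φ .bot
/-- conjunction -/
def and (φ ψ : FmlX) : FmlX := neg (.imp φ (neg ψ))
/-- disjunction -/
def or (φ ψ : FmlX) : FmlX := .imp (neg φ) ψ
/-- equivalence -/
def iff (φ ψ : FmlX) : FmlX := and (.imp φ ψ) (.imp ψ φ)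
/-- existential quantifier -/
def ex (φ : FmlX) : FmlX := neg (.all (neg φ))

/-- A bound for the free variables of a formula. -/
def bd : FmlX → ℕ
  | .bot => 0
  | .mem i j => max (i + 1) (j + 1)
  | .eq i j => max (i + 1) (j + 1)
  | .real i => i + 1
  | .bor _ i j => max (i + 1) (j + 1)
  | .imp φ ψ => max φ.bd ψ.bd
  | .all φ => φ.bd - 1

/-- a formula of the language of set theory as an extended formula -/
def ofF : Fml → FmlX
  | .bot => .bot
  | .mem i j => .mem i j
  | .eq i j => .eq i j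
  | .imp φ ψ => .imp (ofF φ) (ofF ψ)
  | .all φ => .all (ofF φ)

end FmlX

/-! ### Boolean values -/

section bvalX

variable {B : Type} [CompleteBooleanAlgebra B] (C : ℕ → BF)

/-- the Boolean value of: `n ∈ x` -/
noncomputable def bit (x : (tS B).HSet) (n : ℕ) : B := (HSet.num (tS B) n).mem x

/-- the Boolean value of: `x ⊆ ω` -/
noncomputable def rlv (x : (tS B).HSet) : B := ⨅ z : (tS B).HSet, z.mem x ⇨ z.mem (HSet.om (tS B))

/-- Boolean values of extended formulas -/
noncomputable def bvalX : FmlX → (ℕ → (tS B).HSet) → B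
  | .bot, _ => ⊥
  | .mem i j, v => (v i).mem (v j)
  | .eq i j, v => (v i).eq (v j)
  | .real i, v => rlv (v i)
  | .bor k i j, v => (C k).bs (jn (bit (v i)) (bit (v j)))
  | .imp φ ψ, v => bvalX φ v ⇨ bvalX ψ v
  | .all φ, v => ⨅ x : (tS B).HSet, bvalX φ (scons x v)

lemma bvalX_ofF (φ : Fml) (v : ℕ → (tS B).HSet) : bvalX C (.ofF φ) v = bval φ v := by
  induction φ generalizing v with
  | bot => rfl
  | mem i j => rfl
  | eq i j => rfl
  | imp φ ψ ih1 ih2 => simp only [FmlX.ofF, bvalX, bval, ih1, ih2]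
  | all φ ih => simp only [FmlX.ofF, bvalX, bval, ih]

variable (φ ψ : FmlX) (v : ℕ → (tS B).HSet)

@[simp] lemma bvalX_bot : bvalX C .bot v = ⊥ := rfl
@[simp] lemma bvalX_mem (i j : ℕ) : bvalX C (.mem i j) v = (v i).mem (v j) := rfl
@[simp] lemma bvalX_eq (i j : ℕ) : bvalX C (.eq i j) v = (v i).eq (v j) := rfl
@[simp] lemma bvalX_real (i : ℕ) : bvalX C (.real i) v = rlv (v i) := rfl
@[simp] lemma bvalX_bor (k i j : ℕ) :
    bvalX C (.bor k i j) v = (C k).bs (jn (bit (v i)) (bit (v j))) := rfl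
@[simp] lemma bvalX_imp : bvalX C (.imp φ ψ) v = bvalX C φ v ⇨ bvalX C ψ v := rfl
@[simp] lemma bvalX_all : bvalX C (.all φ) v = ⨅ x, bvalX C φ (scons x v) := rfl
@[simp] lemma bvalX_neg : bvalX C φ.neg v = (bvalX C φ v)ᶜ := by simp [FmlX.neg]
@[simp] lemma bvalX_and : bvalX C (φ.and ψ) v = bvalX C φ v ⊓ bvalX C ψ v := by
  simp [FmlX.and, himp_eq, compl_sup, inf_comm]
@[simp] lemma bvalX_or : bvalX C (φ.or ψ) v = bvalX C φ v ⊔ bvalX C ψ v := by
  simp [FmlX.or, himp_eq, sup_comm]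
@[simp] lemma bvalX_iff : bvalX C (φ.iff ψ) v =
    (bvalX C φ v ⇨ bvalX C ψ v) ⊓ (bvalX C ψ v ⇨ bvalX C φ v) := by
  simp [FmlX.iff]
@[simp] lemma bvalX_ex : bvalX C φ.ex v = ⨆ x, bvalX C φ (scons x v) := by
  simp [FmlX.ex, compl_iInf]

end bvalX

section congr

variable {B : Type} [CompleteBooleanAlgebra B] (C : ℕ → BF)

/-- Infimum of the values of equality of two assignments. -/
noncomputable def eqs (v w : ℕ → (tS B).HSet) : B := ⨅ i, (v i).eq (w i)

lemma eqs_symm (v w : ℕ → (tS B).HSet) : eqs v w = eqs w v :=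
  iInf_congr fun _ => HSet.eq_symm _ _

lemma eqs_scons (x : (tS B).HSet) (v w : ℕ → (tS B).HSet) :
    eqs v w ≤ eqs (scons x v) (scons x w) := by
  refine le_iInf fun i => ?_
  cases i with
  | zero => simp [scons]
  | succ n => exact iInf_le _ n

lemma eqs_scons_left (x y : (tS B).HSet) (v : ℕ → (tS B).HSet) :
    eqs (scons x v) (scons y v) = x.eq y := by
  apply le_antisymm
  · exact iInf_le (fun i => ((scons x v i).eq (scons y v i) : B)) 0
  · refine le_iInf fun i => ?_
    cases i with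
    | zero => simp [scons]
    | succ n => simp [scons]

lemma eq_le_bit (x y : (tS B).HSet) (n : ℕ) : x.eq y ≤ (bit x n ⇨ bit y n) ⊓ (bit y n ⇨ bit x n) := by
  refine le_inf ?_ ?_
  · rw [le_himp_iff]; exact HSet.mem_congr_right _ _ _
  · rw [le_himp_iff, HSet.eq_symm]; exact HSet.mem_congr_right _ _ _

lemma rlv_congr (x y : (tS B).HSet) : x.eq y ⊓ rlv x ≤ rlv y := by
  refine le_iInf fun z => ?_
  rw [le_himp_iff]
  calc x.eq y ⊓ rlv x ⊓ z.mem y ≤ rlv x ⊓ z.mem x := by
        refine le_inf (inf_le_left.trans inf_le_right) ?_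
        rw [HSet.eq_symm]
        exact (inf_le_inf_right _ inf_le_left).trans (HSet.mem_congr_right _ _ _)
    _ ≤ _ := (inf_le_inf_right _ (iInf_le _ z)).trans himp_inf_le

lemma bor_congr (k : ℕ) (x y x' y' : (tS B).HSet) :
    (x.eq x' ⊓ y.eq y') ⊓ (C k).bs (jn (bit x) (bit y)) ≤ (C k).bs (jn (bit x') (bit y')) := by
  refine le_trans (inf_le_inf_right _ (le_iInf fun n => ?_))
    (BF.bs_congr (C k) (jn (bit x) (bit y)) (jn (bit x') (bit y')))
  unfold jn
  split_ifs
  · exact inf_le_left.trans (eq_le_bit _ _ _)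
  · exact inf_le_right.trans (eq_le_bit _ _ _)

lemma bvalX_congr (φ : FmlX) (v w : ℕ → (tS B).HSet) :
    eqs v w ⊓ bvalX C φ v ≤ bvalX C φ w := by
  induction φ generalizing v w with
  | bot => simp
  | mem i j =>
    simp only [bvalX_mem]
    calc eqs v w ⊓ (v i).mem (v j)
        ≤ (v j).eq (w j) ⊓ ((v i).eq (w i) ⊓ (v i).mem (v j)) := by
          refine le_inf (inf_le_left.trans (iInf_le _ j)) (inf_le_inf_right _ (iInf_le _ i))
      _ ≤ (v j).eq (w j) ⊓ (w i).mem (v j) := inf_le_inf_left _ (HSet.mem_congr_left _ _ _)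
      _ ≤ _ := HSet.mem_congr_right _ _ _
  | eq i j =>
    simp only [bvalX_eq]
    calc eqs v w ⊓ (v i).eq (v j)
        ≤ ((w i).eq (v i) ⊓ (v i).eq (v j)) ⊓ (v j).eq (w j) := by
          refine le_inf (inf_le_inf_right _ ?_) (inf_le_left.trans (iInf_le _ j))
          rw [HSet.eq_symm]; exact iInf_le _ i
      _ ≤ (w i).eq (v j) ⊓ (v j).eq (w j) := inf_le_inf_right _ (HSet.eq_trans _ _ _)
      _ ≤ _ := HSet.eq_trans _ _ _
  | real i =>
    simp only [bvalX_real]
    exact (inf_le_inf_right _ (iInf_le _ i)).trans (rlv_congr _ _)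
  | bor k i j =>
    simp only [bvalX_bor]
    refine le_trans (inf_le_inf_right _ ?_) (bor_congr C k (v i) (v j) (w i) (w j))
    exact le_inf (iInf_le _ i) (iInf_le _ j)
  | imp φ ψ ih1 ih2 =>
    simp only [bvalX_imp]
    rw [le_himp_iff]
    calc eqs v w ⊓ (bvalX C φ v ⇨ bvalX C ψ v) ⊓ bvalX C φ w
        ≤ eqs v w ⊓ ((bvalX C φ v ⇨ bvalX C ψ v) ⊓ bvalX C φ v) := by
          refine le_inf (inf_le_left.trans inf_le_left) (le_inf (inf_le_left.trans inf_le_right) ?_)
          calc eqs v w ⊓ (bvalX C φ v ⇨ bvalX C ψ v) ⊓ bvalX C φ w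
              ≤ eqs w v ⊓ bvalX C φ w := by
                rw [eqs_symm]; exact inf_le_inf_right _ inf_le_left
            _ ≤ _ := ih1 _ _
      _ ≤ eqs v w ⊓ bvalX C ψ v := inf_le_inf_left _ himp_inf_le
      _ ≤ _ := ih2 _ _
  | all φ ih =>
    simp only [bvalX_all]
    refine le_iInf fun x => ?_
    calc eqs v w ⊓ (⨅ y, bvalX C φ (scons y v))
        ≤ eqs (scons x v) (scons x w) ⊓ bvalX C φ (scons x v) :=
          inf_le_inf (eqs_scons _ _ _) (iInf_le _ x)
      _ ≤ _ := ih _ _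

lemma bvalX_congr_scons (φ : FmlX) (x y : (tS B).HSet) (v : ℕ → (tS B).HSet) :
    x.eq y ⊓ bvalX C φ (scons x v) ≤ bvalX C φ (scons y v) := by
  rw [← eqs_scons_left x y v]; exact bvalX_congr _ _ _ _

lemma bvalX_bd (φ : FmlX) (v w : ℕ → (tS B).HSet) (h : ∀ i < φ.bd, v i = w i) :
    bvalX C φ v = bvalX C φ w := by
  induction φ generalizing v w with
  | bot => rfl
  | mem i j =>
    simp only [FmlX.bd, lt_max_iff] at h
    simp only [bvalX, h i (Or.inl (Nat.lt_succ_self i)), h j (Or.inr (Nat.lt_succ_self j))]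
  | eq i j =>
    simp only [FmlX.bd, lt_max_iff] at h
    simp only [bvalX, h i (Or.inl (Nat.lt_succ_self i)), h j (Or.inr (Nat.lt_succ_self j))]
  | real i =>
    simp only [FmlX.bd] at h
    simp only [bvalX, h i (Nat.lt_succ_self i)]
  | bor k i j =>
    simp only [FmlX.bd, lt_max_iff] at h
    simp only [bvalX, h i (Or.inl (Nat.lt_succ_self i)), h j (Or.inr (Nat.lt_succ_self j))]
  | imp φ ψ ih1 ih2 =>
    simp only [FmlX.bd, lt_max_iff] at h
    simp only [bvalX, ih1 v w (fun i hi => h i (Or.inl hi)), ih2 v w (fun i hi => h i (Or.inr hi))]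
  | all φ ih =>
    simp only [FmlX.bd] at h
    simp only [bvalX]
    refine iInf_congr fun x => ih _ _ fun i hi => ?_
    cases i with
    | zero => rfl
    | succ n => exact h n (by omega)

end congr

end Pool.Agent.Lib.RM48
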