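import Mathlib
import Pool.Agent.Lib.RM48.Triv
import Pool.Agent.Lib.RM48.FmlX
import Pool.Agent.Lib.SymZF.Generic

section

/-!
# Boolean-valued ranks of names
-/

set_option autoImplicit false

open Set

namespace Pool.Agent.Lib.RM48

open Pool.Agent.Lib.SymZF Pool.Agent.Lib.SymZF.SymSys Name

variable {B : Type} [CompleteBooleanAlgebra B]

/-- the Boolean value of: the rank of `x` is at most `α` -/
noncomputable def rkle : Name B → Ordinal.{0} → B
  | .mk _ f b, α => ⨅ i, b i ⇨ ⨆ β : {β : Ordinal.{0} // β < α}, rkle (f i) β.1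

/-- the Boolean value of: the rank of `x` is less than `α` -/
noncomputable def rklt (x : Name B) (α : Ordinal.{0}) : B :=
  ⨆ β : {β : Ordinal.{0} // β < α}, rkle x β.1

lemma rkle_mk {ι : Type} (f : ι → Name B) (b : ι → B) (α : Ordinal.{0}) :
    rkle (.mk ι f b) α = ⨅ i, b i ⇨ rklt (f i) α := by
  rw [rkle]; rfl

lemma rklt_mono (x : Name B) {α β : Ordinal.{0}} (h : α ≤ β) : rklt x α ≤ rklt x β :=
  iSup_le fun γ => le_iSup (fun γ : {γ : Ordinal.{0} // γ < β} => rkle x γ.1)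
    ⟨γ.1, γ.2.trans_le h⟩

lemma rkle_le_rklt (x : Name B) {α β : Ordinal.{0}} (h : α < β) : rkle x α ≤ rklt x β :=
  le_iSup (fun γ : {γ : Ordinal.{0} // γ < β} => rkle x γ.1) ⟨α, h⟩

lemma exists_rkle (x : Name B) : ∃ α, rkle x α = ⊤ := by
  induction x with
  | mk ι f b ih =>
    choose α hα using ih
    refine ⟨Order.succ (⨆ i, α i), ?_⟩
    rw [rkle_mk, iInf_eq_top]
    intro i
    rw [himp_eq_top_iff]
    refine le_trans le_top ?_
    rw [← hα i]
    refine rkle_le_rklt _ ?_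
    rw [Order.lt_succ_iff]
    exact Ordinal.le_iSup α i

lemma rkle_congr (x y : Name B) (α : Ordinal.{0}) : beq x y ⊓ rkle x α ≤ rkle y α := by
  induction y generalizing x α with
  | mk κ g c ih =>
    cases x with
    | mk ι f b =>
      rw [rkle_mk g c]
      refine le_iInf fun j => ?_
      rw [le_himp_iff]
      have h1 : beq (.mk ι f b) (.mk κ g c) ⊓ c j ≤ ⨆ i : ι, b i ⊓ beq (f i) (g j) := by
        have h2 : beq (.mk ι f b) (.mk κ g c) ≤ c j ⇨ ⨆ i : ι, b i ⊓ beq (f i) (g j) := by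
          rw [beq_mk]; exact inf_le_right.trans (iInf_le _ j)
        exact (inf_le_inf_right _ h2).trans himp_inf_le
      calc beq (.mk ι f b) (.mk κ g c) ⊓ rkle (.mk ι f b) α ⊓ c j
          ≤ rkle (.mk ι f b) α ⊓ ⨆ i : ι, b i ⊓ beq (f i) (g j) := by
            refine le_inf (inf_le_left.trans inf_le_right) (le_trans ?_ h1)
            exact le_inf (inf_le_left.trans inf_le_left) inf_le_right
        _ ≤ rklt (g j) α := by
            rw [inf_iSup_eq]
            refine iSup_le fun i => ?_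
            have h3 : rkle (.mk ι f b) α ⊓ b i ≤ rklt (f i) α := by
              rw [rkle_mk]
              exact (inf_le_inf_right _ (iInf_le _ i)).trans himp_inf_le
            calc rkle (.mk ι f b) α ⊓ (b i ⊓ beq (f i) (g j))
                ≤ beq (f i) (g j) ⊓ rklt (f i) α := by
                  rw [← inf_assoc, inf_comm]
                  exact inf_le_inf_left _ h3
              _ ≤ _ := by
                  rw [rklt, inf_iSup_eq]
                  exact iSup_le fun β => (ih j (f i) β.1).trans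
                    (le_iSup (fun γ : {γ : Ordinal.{0} // γ < α} => rkle (g j) γ.1) β)

lemma rklt_congr (x y : Name B) (α : Ordinal.{0}) : beq x y ⊓ rklt x α ≤ rklt y α := by
  rw [rklt, inf_iSup_eq]
  exact iSup_le fun β => (rkle_congr x y β.1).trans (rkle_le_rklt y β.2)

lemma rkle_mem (x y : Name B) (α : Ordinal.{0}) : bmem x y ⊓ rkle y α ≤ rklt x α := by
  cases y with
  | mk κ g c =>
    rw [bmem_mk, iSup_inf_eq]
    refine iSup_le fun j => ?_
    have h3 : c j ⊓ rkle (.mk κ g c) α ≤ rklt (g j) α := by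
      rw [rkle_mk, inf_comm]
      exact (inf_le_inf_right _ (iInf_le _ j)).trans himp_inf_le
    calc c j ⊓ beq x (g j) ⊓ rkle (.mk κ g c) α
        ≤ beq (g j) x ⊓ rklt (g j) α := by
          rw [beq_symm x (g j)]
          refine le_inf (inf_le_left.trans inf_le_right) (le_trans ?_ h3)
          exact inf_le_inf_right _ inf_le_left
      _ ≤ _ := rklt_congr _ _ _

/-- the Boolean value of: the rank of `x` is `α` -/
noncomputable def rkv (x : Name B) (α : Ordinal.{0}) : B := rkle x α ⊓ (rklt x α)ᶜ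

lemma iSup_rkv (x : Name B) : ⨆ α, rkv x α = ⊤ := by
  obtain ⟨α, hα⟩ := exists_rkle x
  rw [eq_top_iff, ← hα]
  clear hα
  induction α using WellFoundedLT.induction with
  | ind α ih =>
    have h1 : rklt x α ≤ ⨆ α, rkv x α := iSup_le fun β => ih β.1 β.2
    calc rkle x α = rkle x α ⊓ (rklt x α ⊔ (rklt x α)ᶜ) := by
          rw [sup_compl_eq_top, inf_top_eq]
      _ = rkle x α ⊓ rklt x α ⊔ rkv x α := by rw [inf_sup_left]; rfl
      _ ≤ _ := sup_le (inf_le_right.trans h1) (le_iSup (rkv x) α)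

end Pool.Agent.Lib.RM48
end

section

/-!
# Countable closed sets of names and generic filters
-/

set_option autoImplicit false

open Set

namespace Pool.Agent.Lib.RM48

open Pool.Agent.Lib.SymZF Pool.Agent.Lib.SymZF.SymSys Name Pool.Agent.Lib.KZF

/-- The Rasiowa–Sikorski lemma: filters which meet countably many families. -/
theorem exists_filter {B : Type} [CompleteBooleanAlgebra B] [Nontrivial B] {J : Type}
    [Countable J] (A : J → Set B) : ∃ U : Set B, (∀ a b, a ∈ U → a ≤ b → b ∈ U) ∧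
      (∀ a b, a ∈ U → b ∈ U → a ⊓ b ∈ U) ∧ ⊤ ∈ U ∧ ⊥ ∉ U ∧
      ∀ j, (∃ b ∈ A j, b ∈ U) ∨ (sSup (A j))ᶜ ∈ U := by
  classical
  obtain ⟨enum, henum⟩ := exists_surjective_nat (Option J)
  let A' : Option J → Set B := fun j => j.elim ∅ A
  have hstep : ∀ (n : ℕ) (p : {p : B // p ≠ ⊥}), ∃ q : {p : B // p ≠ ⊥}, q.1 ≤ p.1 ∧
      ((∃ b ∈ A' (enum n), q.1 ≤ b) ∨ q.1 ≤ (sSup (A' (enum n)))ᶜ) := by
    intro n p
    by_cases h : p.1 ⊓ sSup (A' (enum n)) = ⊥
    · exact ⟨p, le_rfl, Or.inr (le_compl_iff_disjoint_right.2 (disjoint_iff.2 h))⟩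
    · rw [inf_sSup_eq, iSup_eq_bot] at h
      push Not at h
      obtain ⟨b, hb⟩ := h
      rw [Ne, iSup_eq_bot] at hb
      push Not at hb
      obtain ⟨hbA, hb2⟩ := hb
      exact ⟨⟨p.1 ⊓ b, hb2⟩, inf_le_left, Or.inl ⟨b, hbA, inf_le_right⟩⟩
  choose nx hnx1 hnx2 using hstep
  let s : ℕ → {p : B // p ≠ ⊥} := fun n => Nat.rec ⟨⊤, top_ne_bot⟩ (fun n p => nx n p) n
  have hss : ∀ n, s (n + 1) = nx n (s n) := fun n => rfl
  have hanti : Antitone fun n => (s n).1 :=
    antitone_nat_of_succ_le fun n => by rw [hss]; exact hnx1 n (s n)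
  refine ⟨{b | ∃ n, (s n).1 ≤ b}, ?_, ?_, ⟨0, le_top⟩, ?_, fun j => ?_⟩
  · rintro a b ⟨n, hn⟩ hab
    exact ⟨n, hn.trans hab⟩
  · rintro a b ⟨n, hn⟩ ⟨m, hm⟩
    exact ⟨max n m, le_inf ((hanti (le_max_left _ _)).trans hn)
      ((hanti (le_max_right _ _)).trans hm)⟩
  · rintro ⟨n, hn⟩
    exact (s n).2 (le_bot_iff.1 hn)
  · obtain ⟨n, hn⟩ := henum (some j)
    rcases hnx2 n (s n) with ⟨b, hb, hb2⟩ | h
    · rw [hn] at hb
      exact Or.inl ⟨b, hb, n + 1, by rw [hss]; exact hb2⟩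
    · rw [hn] at h
      exact Or.inr ⟨n + 1, by rw [hss]; exact h⟩

variable {B : Type} [CompleteBooleanAlgebra B] (C : ℕ → BF)

/-- Skolem operations. -/
noncomputable def sk (φ : FmlX) (l : List (tS B).HSet) : (tS B).HSet :=
  (exists_max (fun x => bvalX C φ (scons x (asg l)))
    (fun x y => bvalX_congr_scons C φ x y (asg l))).choose

lemma sk_spec (φ : FmlX) (l : List (tS B).HSet) :
    bvalX C φ (scons (sk C φ l) (asg l)) = ⨆ x, bvalX C φ (scons x (asg l)) :=
  (exists_max (fun x => bvalX C φ (scons x (asg l)))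
    (fun x y => bvalX_congr_scons C φ x y (asg l))).choose_spec

/-- A countable set of names closed under the Skolem operations. -/
structure Nms (B : Type) [CompleteBooleanAlgebra B] (C : ℕ → BF) where
  /-- the enumeration -/
  ν : ℕ → (tS B).HSet
  sk : ∀ φ (l : List ℕ), ∃ j, ν j = sk C φ (l.map ν)
  hnum : ∀ n, ∃ j, ν j = HSet.num (tS B) n
  hom : ∃ j, ν j = HSet.om (tS B)
  hpair : ∀ i j, ∃ k, ν k = (ν i).pair (ν j)

theorem exists_nms : Nonempty (Nms B C) := by
  obtain ⟨ν, h1, h2⟩ := exists_closed (K := FmlX ⊕ (ℕ ⊕ Unit ⊕ Unit))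
    (fun k l => match k with
      | .inl φ => sk C φ l
      | .inr (.inl n) => HSet.num (tS B) n
      | .inr (.inr (.inl _)) => HSet.om (tS B)
      | .inr (.inr (.inr _)) =>
        HSet.pair (l.getD 0 (HSet.num (tS B) 0)) (l.getD 1 (HSet.num (tS B) 0)))
    (fun _ => HSet.num (tS B) 0)
  exact ⟨⟨ν, fun k l => h2 (.inl k) l, fun n => h2 (.inr (.inl n)) [],
    h2 (.inr (.inr (.inl ()))) [], fun i j => h2 (.inr (.inr (.inr ()))) [i, j]⟩⟩

lemma asg_list' (ν : ℕ → (tS B).HSet) (s : ℕ → ℕ) (n i : ℕ) (hi : i < n) :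
    asg (((List.range n).map s).map ν) i = ν (s i) := asg_list ν s n i hi

lemma bvalX_scons_list (ν : ℕ → (tS B).HSet) (φ : FmlX) (s : ℕ → ℕ) (x : (tS B).HSet) :
    bvalX C φ (scons x (asg (((List.range φ.bd).map s).map ν))) =
      bvalX C φ (scons x (fun i => ν (s i))) := by
  apply bvalX_bd
  intro i hi
  cases i with
  | zero => rfl
  | succ n =>
    simp only [scons_succ]
    exact asg_list ν s _ n (by omega)

variable {C}

/-- the suprema are attained -/
lemma Nms.att (N : Nms B C) (φ : FmlX) (s : ℕ → ℕ) :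
    ∃ j, bvalX C φ (scons (N.ν j) (fun i => N.ν (s i))) =
      ⨆ x : (tS B).HSet, bvalX C φ (scons x (fun i => N.ν (s i))) := by
  obtain ⟨j, hj⟩ := N.sk φ ((List.range φ.bd).map s)
  refine ⟨j, ?_⟩
  have h := sk_spec C φ (((List.range φ.bd).map s).map N.ν)
  rw [← hj] at h
  simp only [bvalX_scons_list] at h
  exact h

/-- A generic filter for a countable set of names. -/
structure Gn (N : Nms B C) where
  /-- the filter -/
  U : Set B
  up : ∀ {a b : B}, a ∈ U → a ≤ b → b ∈ U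
  inf : ∀ {a b : B}, a ∈ U → b ∈ U → a ⊓ b ∈ U
  top : ⊤ ∈ U
  bot : ⊥ ∉ U
  dec : ∀ (φ : FmlX) (v : ℕ → ℕ), bvalX C φ (fun i => N.ν (v i)) ∈ U ∨
    (bvalX C φ (fun i => N.ν (v i)))ᶜ ∈ U
  memg : ∀ i j, (N.ν i).mem (N.ν j) ∈ U →
    ∃ k : (N.ν j).idx, (N.ν j).vl k ∈ U ∧ (N.ν i).eq ((N.ν j).el k) ∈ U
  resp : ∀ k i j, BF.Resp U (jn (bit (N.ν i)) (bit (N.ν j))) (C k)
  rk : ∀ i, ∃ α, rkv (N.ν i).1 α ∈ U

theorem exists_gn [Nontrivial B] (N : Nms B C) : Nonempty (Gn N) := by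
  classical
  have hcs : ∀ k, Countable ↥(BF.sups (C k)) := fun k => (BF.sups_countable _).to_subtype
  let J : Type := ((FmlX × List ℕ) ⊕ (ℕ × ℕ)) ⊕ ((Σ k : ℕ, (ℕ × ℕ) × ↥(BF.sups (C k))) ⊕ ℕ)
  let A : J → Set B := fun j => match j with
    | .inl (.inl (φ, l)) => {bvalX C φ (asg (l.map N.ν))}
    | .inl (.inr (i, j)) => range fun k => (N.ν j).vl k ⊓ (N.ν i).eq ((N.ν j).el k)
    | .inr (.inl ⟨_, (i, j), f⟩) => range fun n => (f.1 n).bs (jn (bit (N.ν i)) (bit (N.ν j)))
    | .inr (.inr i) => range fun α => rkv (N.ν i).1 α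
  have hJ : Countable J := inferInstance
  obtain ⟨U, up, inf, top, bot, hmeet⟩ := exists_filter A
  have hlist : ∀ (φ : FmlX) (v : ℕ → ℕ), bvalX C φ (asg (((List.range φ.bd).map v).map N.ν)) =
      bvalX C φ (fun i => N.ν (v i)) := by
    intro φ v
    exact bvalX_bd _ _ _ _ fun i hi => asg_list N.ν v _ i hi
  have hdec : ∀ (φ : FmlX) (v : ℕ → ℕ), bvalX C φ (fun i => N.ν (v i)) ∈ U ∨
      (bvalX C φ (fun i => N.ν (v i)))ᶜ ∈ U := by
    intro φ v
    rw [← hlist]
    rcases hmeet (.inl (.inl (φ, (List.range φ.bd).map v))) with ⟨b, hb, hb2⟩ | h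
    · left
      simp only [A, mem_singleton_iff] at hb
      rwa [← hb]
    · right
      simpa only [A, sSup_singleton] using h
  refine ⟨⟨U, fun {a b} => up a b, fun {a b} => inf a b, top, bot, hdec, ?_, ?_, ?_⟩⟩
  · intro i j hij
    rcases hmeet (.inl (.inr (i, j))) with ⟨b, hb, hb2⟩ | h
    · obtain ⟨k, rfl⟩ := hb
      exact ⟨k, up _ _ hb2 inf_le_left, up _ _ hb2 inf_le_right⟩
    · exfalso
      simp only [A, sSup_range] at h
      rw [HSet.mem_eq] at hij
      exact bot (up _ _ (inf _ _ hij h) (by simp))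
  · intro k i j
    refine BF.resp_of (fun n => ?_) fun f hf => ?_
    · have hb : ∀ (i m : ℕ), bit (N.ν i) m ∈ U ∨ (bit (N.ν i) m)ᶜ ∈ U := by
        intro i m
        obtain ⟨l, hl⟩ := N.hnum m
        have h := hdec (.mem 0 1) (scons l (fun _ => i))
        simp only [bvalX_mem, scons_zero, scons_one] at h
        rw [hl] at h
        exact h
      unfold jn
      split_ifs
      · exact hb i _
      · exact hb j _
    · rcases hmeet (.inr (.inl ⟨k, (i, j), ⟨f, hf⟩⟩)) with ⟨b, hb, hb2⟩ | h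
      · obtain ⟨n, rfl⟩ := hb
        exact Or.inl ⟨n, hb2⟩
      · right
        simpa only [A, sSup_range] using h
  · intro i
    rcases hmeet (.inr (.inr i)) with ⟨b, hb, hb2⟩ | h
    · obtain ⟨α, rfl⟩ := hb
      exact ⟨α, hb2⟩
    · exfalso
      simp only [A, sSup_range] at h
      have h1 : (⨆ α, rkv (N.ν i).1 α : B) = ⊤ := iSup_rkv (N.ν i).1
      rw [h1, compl_top] at h
      exact bot h

end Pool.Agent.Lib.RM48
end
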