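import Mathlib
import Pool.Agent.Lib.RM48.Model
import Pool.Agent.Lib.RM48.Defs
import Pool.Agent.Lib.SymZF.Internal
import Pool.Agent.Lib.RM48.Alg
import Pool.Agent.Lib.SymZF.EvalMore

section

/-!
# Evaluation of names, reals, extended truth lemma, well-foundedness
-/

set_option autoImplicit false

open Set

namespace Pool.Agent.Lib.RM48

open Pool.Agent.Lib.SymZF Pool.Agent.Lib.SymZF.SymSys Name Pool.Agent.Lib.KZF

variable {B : Type} [CompleteBooleanAlgebra B] {C : ℕ → BF} {N : Nms B C}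

namespace Gn

variable (G : Gn N)

instance : Countable G.M := by
  have h : Function.Surjective G.toM := G.toM_surj
  exact h.countable

/-- well-foundedness -/
theorem wf : WellFounded G.E := by
  classical
  choose r hr using fun u : G.M => G.toM_surj u
  choose ρ hρ using fun i => G.rk i
  refine Subrelation.wf (r := InvImage (· < ·) fun u => ρ (r u)) ?_
    (InvImage.wf (fun u => ρ (r u)) Ordinal.lt_wf)
  intro u v huv
  show ρ (r u) < ρ (r v)
  rw [← hr u, ← hr v, E_toM] at huv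
  by_contra hcon
  rw [not_lt] at hcon
  have h1 : rkle (N.ν (r v)).1 (ρ (r v)) ∈ G.U := G.up (hρ (r v)) inf_le_left
  have h2 : rklt (N.ν (r u)).1 (ρ (r v)) ∈ G.U := G.up (G.inf huv h1) (rkle_mem _ _ _)
  have h3 : rklt (N.ν (r u)).1 (ρ (r u)) ∈ G.U := G.up h2 (rklt_mono _ hcon)
  have h4 : (rklt (N.ν (r u)).1 (ρ (r u)))ᶜ ∈ G.U := G.up (hρ (r u)) inf_le_right
  exact G.compl_mem h3 h4

lemma E_toM_iff (u : G.M) (j : ℕ) :
    G.E u (G.toM j) ↔ ∃ i, G.toM i = u ∧ (N.ν i).mem (N.ν j) ∈ G.U := by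
  obtain ⟨i, rfl⟩ := G.toM_surj u
  rw [E_toM]
  constructor
  · exact fun h => ⟨i, rfl, h⟩
  · rintro ⟨i', he, hm⟩
    rw [toM_eq] at he
    exact G.up (G.inf he hm) (HSet.mem_congr_left _ _ _)

/-- an index of the numeral -/
noncomputable def nidx (N : Nms B C) (n : ℕ) : ℕ := (N.hnum n).choose

lemma ν_nidx (N : Nms B C) (n : ℕ) : N.ν (nidx N n) = HSet.num (tS B) n := (N.hnum n).choose_spec

/-- an index of `ω` -/
noncomputable def oidx (N : Nms B C) : ℕ := N.hom.choose

lemma ν_oidx (N : Nms B C) : N.ν (oidx N) = HSet.om (tS B) := N.hom.choose_spec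

lemma isNum_nidx (n : ℕ) : IsNum G.E n (G.toM (nidx N n)) := by
  induction n with
  | zero =>
    intro x hx
    obtain ⟨i, rfl⟩ := G.toM_surj x
    rw [E_toM, ν_nidx, HSet.mem_num_zero] at hx
    exact G.bot hx
  | succ n ih =>
    refine ⟨_, ih, fun x => ?_⟩
    obtain ⟨i, rfl⟩ := G.toM_surj x
    rw [E_toM, E_toM, toM_eq, ν_nidx, ν_nidx, HSet.mem_num_succ]
    constructor
    · intro hm
      have hd := G.dec (.mem 0 1) (scons i (fun _ => nidx N n))
      simp only [bvalX_mem, scons_zero, scons_one, ν_nidx] at hd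
      rcases hd with hd | hd
      · exact Or.inl hd
      · right
        refine G.up (G.inf hd hm) ?_
        rw [inf_sup_left, compl_inf_self, bot_sup_eq]
        exact inf_le_right
    · rintro (hm | hm)
      · exact G.up hm le_sup_left
      · exact G.up hm le_sup_right

lemma E_om_iff (x : G.M) : G.E x (G.toM (oidx N)) ↔ ∃ n, x = G.toM (nidx N n) := by
  constructor
  · intro h
    obtain ⟨i, rfl⟩ := G.toM_surj x
    rw [E_toM] at h
    have hl := G.memg _ _ h
    rw [ν_oidx] at hl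
    obtain ⟨k, _, hk2⟩ := hl
    change ℕ at k
    change (N.ν i).eq (HSet.num (tS B) k) ∈ G.U at hk2
    refine ⟨k, ?_⟩
    rw [toM_eq, ν_nidx]
    exact hk2
  · rintro ⟨n, rfl⟩
    rw [E_toM, ν_nidx, ν_oidx, HSet.mem_om]
    refine G.up G.top ?_
    refine le_iSup_of_le n ?_
    rw [HSet.eq_refl]

lemma isOmega_oidx : IsOmega G.E (G.toM (oidx N)) := by
  have hZ := G.isZF
  have key := G.E_om_iff
  refine ⟨⟨⟨G.toM (nidx N 0), G.isNum_nidx 0, (key _).2 ⟨0, rfl⟩⟩, fun x hx => ?_⟩, ?_⟩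
  · obtain ⟨n, rfl⟩ := (key x).1 hx
    obtain ⟨j, hj, hs⟩ := G.isNum_nidx (n + 1)
    refine ⟨G.toM (nidx N (n + 1)), ?_, (key _).2 ⟨n + 1, rfl⟩⟩
    rw [num_unique hZ (G.isNum_nidx n) hj]
    exact hs
  · intro w' hw' x hx
    obtain ⟨n, rfl⟩ := (key x).1 hx
    clear hx
    induction n with
    | zero =>
      obtain ⟨⟨e, he, hew⟩, _⟩ := hw'
      rw [emp_unique hZ (G.isNum_nidx 0) he]; exact hew
    | succ n ih =>
      obtain ⟨s, hs, hsw⟩ := hw'.2 _ ih
      obtain ⟨j, hj, hs'⟩ := G.isNum_nidx (n + 1)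
      rw [← num_unique hZ (G.isNum_nidx n) hj] at hs'
      rw [succ_unique hZ hs' hs]; exact hsw

theorem omegaStd : OmegaStd G.E := by
  intro w k hw hk
  rw [omega_unique G.isZF hw G.isOmega_oidx] at hk
  obtain ⟨n, rfl⟩ := (G.E_om_iff k).1 hk
  exact ⟨n, G.isNum_nidx n⟩

lemma mem_rl (n i : ℕ) : n ∈ rl G.E (G.toM i) ↔ bit (N.ν i) n ∈ G.U := by
  constructor
  · rintro ⟨z, hz, hzx⟩
    rw [num_unique G.isZF hz (G.isNum_nidx n), E_toM, ν_nidx] at hzx
    exact hzx
  · intro h
    refine ⟨_, G.isNum_nidx n, ?_⟩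
    rw [E_toM, ν_nidx]
    exact h

lemma isReal_iff (i : ℕ) : IsReal G.E (G.toM i) ↔ rlv (N.ν i) ∈ G.U := by
  have h1 := G.truth (.all ((Fml.mem 0 1).imp (.mem 0 2))) (scons i (fun _ => oidx N))
  have h2 : bval (.all ((Fml.mem 0 1).imp (.mem 0 2)))
      (fun k => N.ν (scons i (fun _ => oidx N) k)) = rlv (N.ν i) := by
    simp only [bval_all, bval_imp, bval_mem, scons_zero, scons_one, scons_two, ν_oidx]
    rfl
  rw [h2] at h1
  rw [← h1]
  simp only [sat_all, sat_imp, sat_mem, scons_zero, scons_one, scons_two]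
  constructor
  · rintro ⟨w, hw, h⟩
    rw [omega_unique G.isZF hw G.isOmega_oidx] at h
    exact h
  · intro h
    exact ⟨_, G.isOmega_oidx, h⟩

end Gn

/-- Satisfaction of extended formulas: `real` is interpreted by the subsets of `ω`, and `bor k`
by the Borel relation with the code `C k`. -/
def SatX {M : Type} (E : M → M → Prop) (C : ℕ → BF) : FmlX → (ℕ → M) → Prop
  | .bot, _ => False
  | .mem i j, v => E (v i) (v j)
  | .eq i j, v => v i = v j
  | .real i, v => IsReal E (v i)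
  | .bor k i j, v => (C k).sem (jn (fun n => n ∈ rl E (v i)) (fun n => n ∈ rl E (v j)))
  | .imp φ ψ, v => SatX E C φ v → SatX E C ψ v
  | .all φ, v => ∀ x : M, SatX E C φ (scons x v)

section
variable {M : Type} (E : M → M → Prop) (C : ℕ → BF) (φ ψ : FmlX) (v : ℕ → M)

@[simp] lemma satX_bot : SatX E C .bot v ↔ False := Iff.rfl
@[simp] lemma satX_mem (i j : ℕ) : SatX E C (.mem i j) v ↔ E (v i) (v j) := Iff.rfl
@[simp] lemma satX_eq (i j : ℕ) : SatX E C (.eq i j) v ↔ v i = v j := Iff.rfl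
@[simp] lemma satX_real (i : ℕ) : SatX E C (.real i) v ↔ IsReal E (v i) := Iff.rfl
@[simp] lemma satX_bor (k i j : ℕ) : SatX E C (.bor k i j) v ↔
    (C k).sem (jn (fun n => n ∈ rl E (v i)) (fun n => n ∈ rl E (v j))) := Iff.rfl
@[simp] lemma satX_imp : SatX E C (.imp φ ψ) v ↔ (SatX E C φ v → SatX E C ψ v) := Iff.rfl
@[simp] lemma satX_all : SatX E C (.all φ) v ↔ ∀ x, SatX E C φ (scons x v) := Iff.rfl
@[simp] lemma satX_neg : SatX E C φ.neg v ↔ ¬ SatX E C φ v := Iff.rfl
@[simp] lemma satX_and : SatX E C (φ.and ψ) v ↔ SatX E C φ v ∧ SatX E C ψ v := by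
  simp only [FmlX.and, satX_neg, satX_imp]; tauto
@[simp] lemma satX_or : SatX E C (φ.or ψ) v ↔ SatX E C φ v ∨ SatX E C ψ v := by
  simp only [FmlX.or, satX_neg, satX_imp]; tauto
@[simp] lemma satX_iff : SatX E C (φ.iff ψ) v ↔ (SatX E C φ v ↔ SatX E C ψ v) := by
  simp only [FmlX.iff, satX_and, satX_imp]; tauto
@[simp] lemma satX_ex : SatX E C φ.ex v ↔ ∃ x, SatX E C φ (scons x v) := by
  simp only [FmlX.ex, satX_neg, satX_all]
  push Not
  rfl

lemma satX_ofF (φ : Fml) : SatX E C (.ofF φ) v ↔ Sat E φ v := by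
  induction φ generalizing v with
  | bot => rfl
  | mem i j => rfl
  | eq i j => rfl
  | imp φ ψ ih1 ih2 => simp only [FmlX.ofF, satX_imp, sat_imp, ih1, ih2]
  | all φ ih => simp only [FmlX.ofF, satX_all, sat_all, ih]

end

namespace Gn

variable (G : Gn N)

lemma bor_iff (k i j : ℕ) :
    (C k).sem (jn (fun n => n ∈ rl G.E (G.toM i)) (fun n => n ∈ rl G.E (G.toM j))) ↔
      (C k).bs (jn (bit (N.ν i)) (bit (N.ν j))) ∈ G.U := by
  have h1 := (BF.Resp.truth G.up G.inf G.bot (G.resp k i j)).1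
  rw [h1]
  have h2 : (fun n => jn (bit (N.ν i)) (bit (N.ν j)) n ∈ G.U) =
      jn (fun n => n ∈ rl G.E (G.toM i)) (fun n => n ∈ rl G.E (G.toM j)) := by
    funext n
    apply propext
    unfold jn
    split_ifs
    · exact (G.mem_rl _ _).symm
    · exact (G.mem_rl _ _).symm
  rw [h2]

/-- The truth lemma for extended formulas. -/
theorem truthX (φ : FmlX) (v : ℕ → ℕ) :
    SatX G.E C φ (fun i => G.toM (v i)) ↔ bvalX C φ (fun i => N.ν (v i)) ∈ G.U := by
  induction φ generalizing v with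
  | bot => exact ⟨fun h => h.elim, fun h => G.bot h⟩
  | mem i j => exact G.E_toM _ _
  | eq i j => exact G.toM_eq _ _
  | real i => exact G.isReal_iff _
  | bor k i j => exact G.bor_iff _ _ _
  | imp φ ψ ih1 ih2 =>
    rw [satX_imp, ih1, ih2, bvalX_imp]
    constructor
    · intro h
      rcases G.dec φ v with h1 | h1
      · exact G.up (h h1) le_himp
      · exact G.up h1 (by rw [himp_eq]; exact le_sup_right)
    · intro h h1
      exact G.up (G.inf h h1) himp_inf_le
  | all φ ih =>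
    rw [satX_all, bvalX_all]
    have hc : ∀ j, (fun i => G.toM (scons j v i)) = scons (G.toM j) (fun i => G.toM (v i)) :=
      fun j => scons_comp j v G.toM
    have hc2 : ∀ j, (fun i => N.ν (scons j v i)) = scons (N.ν j) (fun i => N.ν (v i)) :=
      fun j => scons_comp j v N.ν
    constructor
    · intro h
      by_contra hcon
      have h1 : bvalX C φ.neg.ex (fun i => N.ν (v i)) ∈ G.U := by
        rcases G.dec (.all φ) v with h1 | h1
        · exact (hcon h1).elim
        · rw [bvalX_all, compl_iInf] at h1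
          simpa using h1
      rw [bvalX_ex] at h1
      obtain ⟨j, hj⟩ := N.att φ.neg v
      rw [← hj, bvalX_neg] at h1
      have h2 := h (G.toM j)
      rw [← hc, ih, hc2] at h2
      exact G.compl_mem h2 h1
    · intro h x
      obtain ⟨j, rfl⟩ := G.toM_surj x
      rw [← hc, ih, hc2]
      exact G.up h (iInf_le (fun x : (tS B).HSet => bvalX C φ (scons x (fun i => N.ν (v i)))) _)

lemma satX_of_valid (φ : FmlX) (w : ℕ → G.M) (h : ∀ v : ℕ → (tS B).HSet, bvalX C φ v = ⊤) :
    SatX G.E C φ w := by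
  obtain ⟨v, rfl⟩ := G.exists_lift w
  rw [truthX, h]
  exact G.top

end Gn

end Pool.Agent.Lib.RM48
end

section

/-!
# The axiom of choice in the Boolean-valued model
-/

set_option autoImplicit false

open Set

namespace Pool.Agent.Lib.RM48

open Pool.Agent.Lib.SymZF Pool.Agent.Lib.SymZF.SymSys Name Pool.Agent.Lib.KZF

variable {B : Type} [CompleteBooleanAlgebra B]

private lemma contr {Q a : B} (h1 : Q ≤ a) (h2 : Q ≤ aᶜ) (b : B) : Q ≤ b :=
  ((le_inf h1 h2).trans (by simp)).trans bot_le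

theorem ac_val (X : (tS B).HSet) :
    ((⨅ x : (tS B).HSet, x.mem X ⇨ ⨆ y : (tS B).HSet, y.mem x) ⊓
      (⨅ x : (tS B).HSet, ⨅ y : (tS B).HSet, ⨅ z : (tS B).HSet,
        x.mem X ⇨ (y.mem X ⇨ (z.mem x ⇨ (z.mem y ⇨ x.eq y)))) : B) ≤
    ⨆ T : (tS B).HSet, ⨅ x : (tS B).HSet, x.mem X ⇨ ⨆ y : (tS B).HSet,
      (y.mem x ⊓ y.mem T) ⊓ ⨅ y' : (tS B).HSet, (y'.mem x ⊓ y'.mem T) ⇨ y'.eq y := by
  classical
  let L : LinearOrder X.idx := linearOrderOfSTO (WellOrderingRel (α := X.idx))
  have W : WellFoundedLT X.idx := ⟨show WellFounded (WellOrderingRel (α := X.idx)) from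
    (WellOrderingRel.isWellOrder (α := X.idx)).wf⟩
  set A : B := ((⨅ x : (tS B).HSet, x.mem X ⇨ ⨆ y : (tS B).HSet, y.mem x) ⊓
      (⨅ x : (tS B).HSet, ⨅ y : (tS B).HSet, ⨅ z : (tS B).HSet,
        x.mem X ⇨ (y.mem X ⇨ (z.mem x ⇨ (z.mem y ⇨ x.eq y)))) : B) with hA
  have hmax : ∀ i : X.idx, ∃ y : (tS B).HSet,
      y.mem (X.el i) = ⨆ y : (tS B).HSet, y.mem (X.el i) := fun i =>
    exists_max (fun y => y.mem (X.el i)) (fun u v => HSet.mem_congr_left u v _)
  choose y hy using hmax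
  let vl : X.idx → B := fun i => X.vl i
  have hvl : ∀ i, vl i ≤ (X.el i).mem X := fun i => X.vl_le_mem i
  let m : X.idx → B := fun i => vl i ⊓ (⨆ j : {j // j < i}, vl j.1 ⊓ (X.el j.1).eq (X.el i))ᶜ
  let T : (tS B).HSet := fm y m
  have hT : ∀ w : (tS B).HSet, w.mem T = ⨆ j, m j ⊓ w.eq (y j) := fun w => mem_fm y m w
  have hA1 : ∀ i, A ⊓ vl i ≤ (y i).mem (X.el i) := by
    intro i
    rw [hy]
    have h1 : A ≤ (X.el i).mem X ⇨ ⨆ y : (tS B).HSet, y.mem (X.el i) :=
      inf_le_left.trans (iInf_le _ (X.el i))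
    exact (inf_le_inf h1 (hvl i)).trans himp_inf_le
  have hA2 : ∀ (x z w : (tS B).HSet) (Q : B), Q ≤ A → Q ≤ x.mem X → Q ≤ z.mem X → Q ≤ w.mem x →
      Q ≤ w.mem z → Q ≤ x.eq z := by
    intro x z w Q h0 h1 h2 h3 h4
    have h5 : A ≤ x.mem X ⇨ (z.mem X ⇨ (w.mem x ⇨ (w.mem z ⇨ x.eq z))) :=
      inf_le_right.trans ((iInf_le _ x).trans ((iInf_le _ z).trans (iInf_le _ w)))
    have h6 := (le_inf (h0.trans h5) h1).trans himp_inf_le
    have h7 := (le_inf h6 h2).trans himp_inf_le
    have h8 := (le_inf h7 h3).trans himp_inf_le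
    exact (le_inf h8 h4).trans himp_inf_le
  refine le_iSup_of_le T (le_iInf fun x => ?_)
  rw [le_himp_iff]
  let t : X.idx → B := fun i => vl i ⊓ x.eq (X.el i)
  have hx : x.mem X = ⨆ i, t i := HSet.mem_eq x X
  rw [hx, iSup_disj t, inf_iSup_eq]
  refine iSup_le fun i => ?_
  set s : B := t i ⊓ (⨆ j : {j // j < i}, t j.1)ᶜ with hs
  have s1 : s ≤ vl i := inf_le_left.trans inf_le_left
  have s2 : s ≤ x.eq (X.el i) := inf_le_left.trans inf_le_right
  have s2' : s ≤ (X.el i).eq x := by rw [HSet.eq_symm]; exact s2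
  have s3 : ∀ j, j < i → s ≤ (t j)ᶜ := by
    intro j hj
    refine inf_le_right.trans (compl_le_compl ?_)
    exact le_iSup (fun j : {j // j < i} => t j.1) ⟨j, hj⟩
  have s4 : s ≤ x.mem X := by
    rw [hx]
    exact inf_le_left.trans (le_iSup t i)
  have s5 : s ≤ m i := by
    refine le_inf s1 ?_
    rw [le_compl_iff_disjoint_right, disjoint_iff, ← le_bot_iff, inf_iSup_eq]
    refine iSup_le fun j => ?_
    have h1 : s ⊓ (vl j.1 ⊓ (X.el j.1).eq (X.el i)) ≤ t j.1 := by
      refine le_inf (inf_le_right.trans inf_le_left) ?_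
      refine le_trans (le_inf (inf_le_left.trans s2) ?_) (HSet.eq_trans _ _ _)
      rw [HSet.eq_symm (X.el i)]
      exact inf_le_right.trans inf_le_right
    exact contr h1 (inf_le_left.trans (s3 j.1 j.2)) ⊥
  refine le_iSup_of_le (y i) (le_inf (le_inf ?_ ?_) (le_iInf fun y' => ?_))
  · refine le_trans (le_inf (inf_le_right.trans s2') ?_) (HSet.mem_congr_right _ _ _)
    exact (inf_le_inf_left _ s1).trans (hA1 i)
  · rw [hT]
    refine inf_le_right.trans (s5.trans ?_)
    exact le_iSup_of_le (f := fun j => m j ⊓ (y i).eq (y j)) i (by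
      rw [HSet.eq_refl]; exact le_inf le_rfl le_top)
  · rw [le_himp_iff, hT, inf_iSup_eq, inf_iSup_eq]
    refine iSup_le fun j => ?_
    set Q : B := A ⊓ s ⊓ (y'.mem x ⊓ (m j ⊓ y'.eq (y j))) with hQ
    have q0 : Q ≤ A := inf_le_left.trans inf_le_left
    have q1 : Q ≤ s := inf_le_left.trans inf_le_right
    have q2 : Q ≤ y'.mem x := inf_le_right.trans inf_le_left
    have q3 : Q ≤ m j := inf_le_right.trans (inf_le_right.trans inf_le_left)
    have q4 : Q ≤ y'.eq (y j) := inf_le_right.trans (inf_le_right.trans inf_le_right)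
    have q5 : Q ≤ vl j := q3.trans inf_le_left
    have q6 : Q ≤ y'.mem (X.el j) := by
      refine le_trans (le_inf ?_ ((le_inf q0 q5).trans (hA1 j))) (HSet.mem_congr_left (y j) y' _)
      rw [HSet.eq_symm]; exact q4
    have q7 : Q ≤ (X.el j).eq x :=
      hA2 _ _ y' Q q0 (q5.trans (hvl j)) (q1.trans s4) q6 q2
    rcases lt_trichotomy j i with h | h | h
    · refine contr (a := t j) (le_inf q5 ?_) (q1.trans (s3 j h)) _
      rw [HSet.eq_symm]; exact q7
    · subst h
      exact q4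
    · have h1 : m j ≤ (vl i ⊓ (X.el i).eq (X.el j))ᶜ := by
        refine inf_le_right.trans (compl_le_compl ?_)
        exact le_iSup (fun k : {k // k < j} => vl k.1 ⊓ (X.el k.1).eq (X.el j)) ⟨i, h⟩
      refine contr (a := vl i ⊓ (X.el i).eq (X.el j)) (le_inf (q1.trans s1) ?_) (q3.trans h1) _
      refine le_trans (le_inf (q1.trans s2') ?_) (HSet.eq_trans _ _ _)
      rw [HSet.eq_symm]; exact q7

/-- the axiom of choice -/
def fAC : Fml :=
  Fml.all ((Fml.all ((Fml.mem 0 1).imp (Fml.ex (Fml.mem 0 1)))).imp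
    ((Fml.all (Fml.all (Fml.all ((Fml.mem 2 3).imp ((Fml.mem 1 3).imp ((Fml.mem 0 2).imp
      ((Fml.mem 0 1).imp (Fml.eq 2 1)))))))).imp
    (Fml.ex (Fml.all ((Fml.mem 0 2).imp (Fml.ex (((Fml.mem 0 1).and (Fml.mem 0 2)).and
      (Fml.all (((Fml.mem 0 2).and (Fml.mem 0 3)).imp (Fml.eq 0 1))))))))))

lemma bval_fAC (v : ℕ → (tS B).HSet) : bval fAC v = ⊤ := by
  simp only [fAC, bval_all, bval_imp, bval_ex, bval_and, bval_mem, bval_eq, scons_zero, scons_one,
    scons_two, scons_three]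
  rw [eq_top_iff]
  refine le_iInf fun X => ?_
  rw [le_himp_iff, top_inf_eq, le_himp_iff]
  exact ac_val X

namespace Gn

variable {C : ℕ → BF} {N : Nms B C} (G : Gn N)

theorem isAC : IsAC G.E := by
  have h := G.sat_of_valid fAC (fun _ => G.toM 0) bval_fAC
  simp only [fAC, sat_all, sat_imp, sat_ex, sat_and, sat_mem, sat_eq, scons_zero, scons_one,
    scons_two, scons_three] at h
  exact h

theorem isZFC : IsZFC G.E := ⟨G.isZF, G.isAC⟩

end Gn

/-- Every complete Boolean algebra gives a countable well-founded model of `ZFC` in which all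
sentences with Boolean value `⊤` hold (with Borel predicates for reals). -/
theorem exists_model (B : Type) [CompleteBooleanAlgebra B] [Nontrivial B] (C : ℕ → BF) :
    ∃ (M : Type) (E : M → M → Prop), Countable M ∧ WellFounded E ∧ OmegaStd E ∧ IsZFC E ∧
      ∀ φ : FmlX, (∀ v : ℕ → (tS B).HSet, bvalX C φ v = ⊤) → ∀ v : ℕ → M, SatX E C φ v := by
  obtain ⟨N⟩ := exists_nms (B := B) C
  obtain ⟨G⟩ := exists_gn N
  exact ⟨G.M, G.E, inferInstance, G.wf, G.omegaStd, G.isZFC, fun φ h v => G.satX_of_valid φ v h⟩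

end Pool.Agent.Lib.RM48
end

section

/-!
# Names for reals over the algebra of a σ-ideal; formulas for relations
-/

set_option autoImplicit false

open Set MeasureTheory

namespace Pool.Agent.Lib.RM48

open Pool.Agent.Lib.SymZF Pool.Agent.Lib.SymZF.SymSys Name Pool.Agent.Lib.KZF

/-! ### Formulas -/

/-- `v k = {v i, v j}` -/
def fUPair (i j k : ℕ) : Fml :=
  Fml.all ((Fml.mem 0 (k + 1)).iff ((Fml.eq 0 (i + 1)).or (Fml.eq 0 (j + 1))))

/-- `v k = (v i, v j)` -/
def fOPair (i j k : ℕ) : Fml :=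
  Fml.ex (Fml.ex ((fUPair (i + 2) (i + 2) 1).and ((fUPair (i + 2) (j + 2) 0).and
    (fUPair 1 0 (k + 2)))))

/-- `(v i, v j) ∈ v r` -/
def fRel (r i j : ℕ) : Fml := Fml.ex ((fOPair (i + 1) (j + 1) 0).and (Fml.mem 0 (r + 1)))

section sat
variable {M : Type} (E : M → M → Prop) (v : ℕ → M)

lemma sat_fUPair (i j k : ℕ) : Sat E (fUPair i j k) v ↔ IsUPair E (v i) (v j) (v k) := by
  simp only [fUPair, sat_all, sat_iff, sat_or, sat_mem, sat_eq]
  exact Iff.rfl

lemma sat_fOPair (i j k : ℕ) : Sat E (fOPair i j k) v ↔ IsOPair E (v i) (v j) (v k) := by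
  simp only [fOPair, sat_ex, sat_and, sat_fUPair]
  exact Iff.rfl

lemma sat_fRel (r i j : ℕ) : Sat E (fRel r i j) v ↔ Rel E (v r) (v i) (v j) := by
  simp only [fRel, sat_ex, sat_and, sat_fOPair, sat_mem]
  exact Iff.rfl

/-- `(v i, v j) ∈ v r` as an extended formula -/
def xRel (r i j : ℕ) : FmlX := .ofF (fRel r i j)

@[simp] lemma satX_xRel (C : ℕ → BF) (r i j : ℕ) :
    SatX E C (xRel r i j) v ↔ Rel E (v r) (v i) (v j) := by
  rw [xRel, satX_ofF, sat_fRel]

end sat

/-! ### General Boolean-valued lemmas -/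

section
variable {B : Type} [CompleteBooleanAlgebra B]

private lemma eq_eq_iInf (x y : (tS B).HSet) :
    (x.eq y : B) = ⨅ z : (tS B).HSet, (z.mem x ⇨ z.mem y) ⊓ (z.mem y ⇨ z.mem x) := by
  apply le_antisymm
  · refine le_iInf fun z => le_inf ?_ ?_
    · rw [le_himp_iff]
      exact HSet.mem_congr_right _ _ _
    · rw [le_himp_iff, HSet.eq_symm]
      exact HSet.mem_congr_right _ _ _
  · refine HSet.le_eq (S := tS B) (fun z => ?_) (fun z => ?_)
    · exact (inf_le_inf_right _ ((iInf_le _ z).trans inf_le_left)).trans himp_inf_le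
    · exact (inf_le_inf_right _ ((iInf_le _ z).trans inf_le_right)).trans himp_inf_le

lemma bval_fUPair (v : ℕ → (tS B).HSet) (i j k : ℕ) :
    bval (fUPair i j k) v = (v k).eq ((v i).pair (v j)) := by
  have h := eq_eq_iInf (v k) ((v i).pair (v j))
  refine Eq.trans ?_ h.symm
  simp only [fUPair, bval_all, bval_iff, bval_or, bval_mem, bval_eq, HSet.mem_pair]
  rfl

lemma bval_fOPair (v : ℕ → (tS B).HSet) (i j k : ℕ) :
    bval (fOPair i j k) v = (v k).eq ((v i).opair (v j)) := by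
  have h0 : bval (fOPair i j k) v = ⨆ a : (tS B).HSet, ⨆ b : (tS B).HSet,
      a.eq ((v i).pair (v i)) ⊓ (b.eq ((v i).pair (v j)) ⊓ (v k).eq (a.pair b)) := by
    simp only [fOPair, bval_ex, bval_and, bval_fUPair]
    rfl
  rw [h0]
  apply le_antisymm
  · refine iSup_le fun a => iSup_le fun b => ?_
    have h1 : a.eq ((v i).pair (v i)) ⊓ (b.eq ((v i).pair (v j)) ⊓ (v k).eq (a.pair b)) ≤
        (v k).eq (a.pair b) ⊓ (a.pair b).eq (((v i).pair (v i)).pair ((v i).pair (v j))) := by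
      refine le_inf (inf_le_right.trans inf_le_right) ?_
      refine le_trans ?_ (HSet.pair_congr _ _ _ _)
      exact le_inf inf_le_left (inf_le_right.trans inf_le_left)
    exact h1.trans (HSet.eq_trans _ _ _)
  · refine le_iSup_of_le ((v i).pair (v i)) (le_iSup_of_le ((v i).pair (v j)) ?_)
    rw [HSet.eq_refl, HSet.eq_refl, top_inf_eq, top_inf_eq]
    exact le_rfl

/-- the Boolean value of: `(a, b) ∈ r` -/
noncomputable def relv (r a b : (tS B).HSet) : B := (a.opair b).mem r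

@[simp] lemma bvalX_xRel (C : ℕ → BF) (v : ℕ → (tS B).HSet) (r i j : ℕ) :
    bvalX C (xRel r i j) v = relv (v r) (v i) (v j) := by
  rw [xRel, bvalX_ofF]
  have h0 : bval (fRel r i j) v = ⨆ p : (tS B).HSet, p.eq ((v i).opair (v j)) ⊓ p.mem (v r) := by
    simp only [fRel, bval_ex, bval_and, bval_fOPair, bval_mem]
    rfl
  rw [h0, relv]
  apply le_antisymm
  · exact iSup_le fun p => HSet.mem_congr_left _ _ _
  · refine le_iSup_of_le ((v i).opair (v j)) ?_
    rw [HSet.eq_refl, top_inf_eq]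

/-- a predicate which has value `⊤` at the elements of a name has value `⊤` on the name -/
lemma le_of_fm {I : Type} (f : I → (tS B).HSet) (P : (tS B).HSet → B)
    (hP : ∀ x y : (tS B).HSet, x.eq y ⊓ P x ≤ P y) (h : ∀ i, P (f i) = ⊤)
    (w : (tS B).HSet) : w.mem (fm f (fun _ => ⊤)) ≤ P w := by
  rw [mem_fm]
  refine iSup_le fun i => ?_
  rw [top_inf_eq]
  refine le_trans ?_ (hP (f i) w)
  rw [h i, inf_top_eq, HSet.eq_symm]

lemma mem_fm_top {I : Type} (f : I → (tS B).HSet) (i : I) :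
    (f i).mem (fm f (fun _ => ⊤)) = ⊤ := by
  rw [mem_fm, eq_top_iff]
  exact le_iSup_of_le (f := fun j => (⊤ : B) ⊓ (f i).eq (f j)) i (by simp)

/-- the name of the subset of `ω` with the Boolean values `b n` -/
noncomputable def rn (b : ℕ → B) : (tS B).HSet := fm (fun n => HSet.num (tS B) n) b

lemma num_eq_bot {k n : ℕ} (h : k ≠ n) :
    ((HSet.num (tS B) k).eq (HSet.num (tS B) n) : B) = ⊥ := by
  have hlt : ∀ k n : ℕ, k < n → (HSet.num (tS B) k).mem (HSet.num (tS B) n) = ⊤ := by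
    intro k n h
    induction n with
    | zero => omega
    | succ n ih =>
      rw [HSet.mem_num_succ]
      rcases Nat.lt_succ_iff_lt_or_eq.1 h with h | rfl
      · rw [ih h, top_sup_eq]
      · rw [HSet.eq_refl, sup_top_eq]
  have hge : ∀ n k : ℕ, n ≤ k → (HSet.num (tS B) k).mem (HSet.num (tS B) n) = ⊥ := by
    intro n
    induction n with
    | zero => intro k _; exact HSet.mem_num_zero _
    | succ n ih =>
      intro k hk
      rw [HSet.mem_num_succ, ih k (by omega), bot_sup_eq]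
      have h1 := HSet.mem_congr_right (HSet.num (tS B) n) (HSet.num (tS B) k) (HSet.num (tS B) n)
      rw [hlt n k (by omega), inf_top_eq, ih n le_rfl] at h1
      exact le_bot_iff.1 h1
  wlog hlt' : k < n generalizing k n
  · rw [HSet.eq_symm]
    exact this h.symm (by omega)
  have h1 := HSet.mem_congr_right (HSet.num (tS B) k) (HSet.num (tS B) n) (HSet.num (tS B) k)
  rw [hlt k n hlt', inf_top_eq, hge k k le_rfl, HSet.eq_symm] at h1
  exact le_bot_iff.1 h1

@[simp] lemma bit_rn (b : ℕ → B) : bit (rn b) = b := by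
  funext n
  rw [bit, rn, mem_fm]
  apply le_antisymm
  · refine iSup_le fun j => ?_
    by_cases h : n = j
    · subst h; exact inf_le_left
    · rw [num_eq_bot h, inf_bot_eq]; exact bot_le
  · exact le_iSup_of_le (f := fun j => b j ⊓ (HSet.num (tS B) n).eq (HSet.num (tS B) j)) n
      (by simp)

@[simp] lemma rlv_rn (b : ℕ → B) : rlv (rn b) = ⊤ := by
  rw [rlv, iInf_eq_top]
  intro z
  rw [himp_eq_top_iff, rn, mem_fm, HSet.mem_om]
  exact iSup_mono fun n => inf_le_right

end

/-! ### Reals over the algebra of a σ-ideal -/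

section alg

variable {Ω : Type} [MeasurableSpace Ω] {F : Filter Ω} [CountableInterFilter F]

/-- the name of the random real `z ↦ {n | z ∈ A n}` -/
noncomputable def rA (F : Filter Ω) (A : ℕ → Set Ω) : (tS (RO (Pos Ω F))).HSet :=
  rn (fun n => el F (A n))

lemma exists_rv (hc : CCF Ω F) (x : (tS (RO (Pos Ω F))).HSet) :
    ∃ A : ℕ → Set Ω, (∀ n, MeasurableSet (A n)) ∧ bit x = fun n => el F (A n) := by
  choose A hA hA' using fun n => exists_el hc (bit x n)
  exact ⟨A, hA, funext fun n => (hA' n).symm⟩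

open Classical in
/-- the name of the set `r` of natural numbers -/
noncomputable def ck (F : Filter Ω) (r : Set ℕ) : (tS (RO (Pos Ω F))).HSet :=
  rA F (fun n => if n ∈ r then univ else ∅)

/-- Boolean values of binary predicates of random reals -/
lemma bs_jn (φ : BF) (P : Set ℕ → Set ℕ → Prop)
    (hφ : ∀ x y : ℕ → Prop, φ.sem (jn x y) ↔ P {n | x n} {n | y n}) (A A' : ℕ → Set Ω)
    (hA : ∀ n, MeasurableSet (A n)) (hA' : ∀ n, MeasurableSet (A' n)) :
    MeasurableSet {z | P {n | z ∈ A n} {n | z ∈ A' n}} ∧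
      φ.bs (jn (fun n => el F (A n)) (fun n => el F (A' n))) =
        el F {z | P {n | z ∈ A n} {n | z ∈ A' n}} := by
  have hm : ∀ n, MeasurableSet (jn A A' n) := by
    intro n
    unfold jn
    split_ifs
    · exact hA _
    · exact hA' _
  have h1 := bs_el (F := F) φ (jn A A') hm
  have h2 : {z | φ.sem (fun n => z ∈ jn A A' n)} = {z | P {n | z ∈ A n} {n | z ∈ A' n}} := by
    ext z
    have h3 : (fun n => z ∈ jn A A' n) = jn (fun n => z ∈ A n) (fun n => z ∈ A' n) := by
      funext n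
      unfold jn
      split_ifs <;> rfl
    rw [mem_ofPred_eq, h3, hφ]
    rfl
  have h4 : (fun n => el F (jn A A' n)) = jn (fun n => el F (A n)) (fun n => el F (A' n)) := by
    funext n
    unfold jn
    split_ifs <;> rfl
  rw [h2, h4] at h1
  exact h1

/-- measurability of Borel predicates of random reals -/
lemma meas_sem {X : Type} [MeasurableSpace X] (φ : BF) (A : ℕ → Set X)
    (hA : ∀ n, MeasurableSet (A n)) : MeasurableSet {z | φ.sem (fun n => z ∈ A n)} := by
  induction φ with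
  | atm n => exact hA n
  | neg φ ih => exact ih.compl
  | sup f ih =>
    have h1 : {z | (BF.sup f).sem (fun n => z ∈ A n)} =
        ⋃ n, {z | (f n).sem (fun n => z ∈ A n)} := by
      ext z
      simp [BF.sem]
    rw [h1]
    exact MeasurableSet.iUnion fun n => ih n

lemma meas_jn {X : Type} [MeasurableSpace X] (φ : BF) (P : Set ℕ → Set ℕ → Prop)
    (hφ : ∀ x y : ℕ → Prop, φ.sem (jn x y) ↔ P {n | x n} {n | y n}) (A A' : ℕ → Set X)
    (hA : ∀ n, MeasurableSet (A n)) (hA' : ∀ n, MeasurableSet (A' n)) :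
    MeasurableSet {z | P {n | z ∈ A n} {n | z ∈ A' n}} := by
  have hm : ∀ n, MeasurableSet (jn A A' n) := by
    intro n
    unfold jn
    split_ifs
    · exact hA _
    · exact hA' _
  have h1 := meas_sem φ (jn A A') hm
  have h2 : {z | φ.sem (fun n => z ∈ jn A A' n)} = {z | P {n | z ∈ A n} {n | z ∈ A' n}} := by
    ext z
    have h3 : (fun n => z ∈ jn A A' n) = jn (fun n => z ∈ A n) (fun n => z ∈ A' n) := by
      funext n
      unfold jn
      split_ifs <;> rfl
    rw [mem_ofPred_eq, h3, hφ]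
    rfl
  rwa [h2] at h1

end alg

/-- the algebra of a finite measure satisfies the countable chain condition -/
lemma ccf_ae {Ω : Type} [MeasurableSpace Ω] (μ : Measure Ω) [IsFiniteMeasure μ] :
    CCF Ω (ae μ) := by
  intro I A hA hpos hdisj
  have h0 : ∀ s : Set Ω, Nl (ae μ) s ↔ μ s = 0 := by
    intro s
    unfold Nl
    rw [mem_ae_iff, compl_compl]
  have h1 := Measure.countable_meas_pos_of_disjoint_iUnion₀ (μ := μ) (As := A)
    (fun i => (hA i).nullMeasurableSet) (fun i j hij => (h0 _).1 (hdisj i j hij))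
  have h2 : {i | 0 < μ (A i)} = univ := by
    refine eq_univ_of_forall fun i => ?_
    have := hpos i
    rw [h0] at this
    exact pos_iff_ne_zero.2 this
  rw [h2] at h1
  exact countable_univ_iff.1 h1

end Pool.Agent.Lib.RM48
end
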