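import Mathlib

open Cardinal Filter Topology MeasureTheory ProbabilityTheory

namespace Pool.Agent.Results.MP_177d78_lc.RandomForcing

/-! ### Relative densities -/

/-- The ratio `|A ∩ B ∩ n| / |B ∩ n|`. -/
noncomputable def relDensity (B A : Set ℕ) (n : ℕ) : ℝ :=
  ((A ∩ B ∩ Set.Iio n).ncard : ℝ) / ((B ∩ Set.Iio n).ncard : ℝ)

/-- The lower density of `A` in `B`. -/
noncomputable def lowerDensity (B A : Set ℕ) : ℝ := liminf (relDensity B A) atTop

/-- The upper density of `A` in `B`. -/
noncomputable def upperDensity (B A : Set ℕ) : ℝ := limsup (relDensity B A) atTop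

/-- The averages of the indicator of `A` along a sequence. -/
noncomputable def avg (n : ℕ → ℕ) (A : Set ℕ) (m : ℕ) : ℝ :=
  (∑ k ∈ Finset.range m, Set.indicator A (fun _ => (1 : ℝ)) (n k)) / m

lemma relDensity_range (n : ℕ → ℕ) (hn : StrictMono n) (A : Set ℕ) (N m : ℕ)
    (hm : ∀ k, k < m ↔ n k < N) : relDensity (Set.range n) A N = avg n A m := by
  classical
  have h1 : Set.range n ∩ Set.Iio N = ((Finset.range m).image n : Finset ℕ) := by
    ext i
    simp only [Set.mem_inter_iff, Set.mem_range, Set.mem_Iio, Finset.coe_image,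
      Finset.coe_range, Set.mem_image]
    constructor
    · rintro ⟨⟨k, rfl⟩, hk⟩
      exact ⟨k, (hm k).2 hk, rfl⟩
    · rintro ⟨k, hk, rfl⟩
      exact ⟨⟨k, rfl⟩, (hm k).1 hk⟩
  have h2 : A ∩ Set.range n ∩ Set.Iio N =
      (((Finset.range m).filter fun k => n k ∈ A).image n : Finset ℕ) := by
    ext i
    simp only [Set.mem_inter_iff, Set.mem_range, Set.mem_Iio, Finset.coe_image,
      Finset.coe_filter, Set.mem_image, Set.mem_ofPred_eq, Finset.mem_range]
    constructor
    · rintro ⟨⟨hA, ⟨k, rfl⟩⟩, hk⟩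
      exact ⟨k, ⟨(hm k).2 hk, hA⟩, rfl⟩
    · rintro ⟨k, ⟨hk, hA⟩, rfl⟩
      exact ⟨⟨hA, ⟨k, rfl⟩⟩, (hm k).1 hk⟩
  unfold relDensity avg
  rw [h1, h2, Set.ncard_coe_finset, Set.ncard_coe_finset,
    Finset.card_image_of_injective _ hn.injective,
    Finset.card_image_of_injective _ hn.injective, Finset.card_range, Finset.card_filter]
  push_cast
  congr 1

lemma tendsto_relDensity (n : ℕ → ℕ) (hn : StrictMono n) (A : Set ℕ) (L : ℝ)
    (h : Tendsto (avg n A) atTop (𝓝 L)) :
    Tendsto (relDensity (Set.range n) A) atTop (𝓝 L) := by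
  classical
  have hex : ∀ N, ∃ m, N ≤ n m := fun N => ⟨N, hn.le_apply⟩
  let f : ℕ → ℕ := fun N => Nat.find (hex N)
  have hf : ∀ N k, k < f N ↔ n k < N := by
    intro N k
    constructor
    · intro hk
      exact not_le.1 (Nat.find_min (hex N) hk)
    · intro hk
      by_contra hcon
      have h1 : N ≤ n (f N) := Nat.find_spec (hex N)
      have h2 := hn.monotone (not_lt.1 hcon)
      omega
  have h1 : relDensity (Set.range n) A = avg n A ∘ f := by
    funext N
    exact relDensity_range n hn A N (f N) (hf N)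
  rw [h1]
  refine h.comp (tendsto_atTop.2 fun b => ?_)
  filter_upwards [eventually_gt_atTop (n b)] with N hN
  exact ((hf N b).2 hN).le

/-- The density of `A` in `B` does not oscillate. -/
def NonOsc (B A : Set ℕ) : Prop := lowerDensity B A = upperDensity B A

lemma nonOsc_of_tendsto {B A : Set ℕ} {L : ℝ} (h : Tendsto (relDensity B A) atTop (𝓝 L)) :
    NonOsc B A := by
  unfold NonOsc lowerDensity upperDensity
  rw [h.liminf_eq, h.limsup_eq]

lemma avg_tendsto_of_subseq (n : ℕ → ℕ) (A : Set ℕ) (L : ℝ)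
    (h : Tendsto (fun j : ℕ => avg n A ((j + 1) ^ 4)) atTop (𝓝 L)) :
    Tendsto (avg n A) atTop (𝓝 L) := by
  refine tendsto_div_of_monotone_of_exists_subseq_tendsto_div
    (fun m => ∑ k ∈ Finset.range m, Set.indicator A (fun _ => (1 : ℝ)) (n k)) L ?_ ?_
  · refine monotone_nat_of_le_succ fun m => ?_
    rw [Finset.sum_range_succ]
    have : 0 ≤ Set.indicator A (fun _ => (1 : ℝ)) (n m) :=
      Set.indicator_nonneg (fun _ _ => zero_le_one) _
    linarith
  · intro a ha
    refine ⟨fun j => (j + 1) ^ 4, ?_, ?_, ?_⟩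
    · have ht : Tendsto (fun j : ℕ => (1 + 1 / ((j : ℝ) + 1)) ^ 4) atTop (𝓝 ((1 + 0) ^ 4)) :=
        (tendsto_one_div_add_atTop_nhds_zero_nat.const_add 1).pow 4
      have hlt : ((1 : ℝ) + 0) ^ 4 < a := by simpa using ha
      filter_upwards [ht.eventually (gt_mem_nhds hlt)] with j hj
      push_cast
      have hpos : (0 : ℝ) < ((j : ℝ) + 1) ^ 4 := by positivity
      have he : ((j : ℝ) + 1 + 1) ^ 4 = (1 + 1 / ((j : ℝ) + 1)) ^ 4 * ((j : ℝ) + 1) ^ 4 := by
        rw [← mul_pow]
        congr 1
        field_simp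
      rw [he]
      exact mul_le_mul_of_nonneg_right hj.le hpos.le
    · refine tendsto_atTop_mono (fun j => ?_) (tendsto_id)
      change j ≤ (j + 1) ^ 4
      calc j ≤ j + 1 := Nat.le_succ j
        _ = (j + 1) ^ 1 := (pow_one _).symm
        _ ≤ (j + 1) ^ 4 := Nat.pow_le_pow_right (by omega) (by omega)
    · exact h

/-! ### Extraction of an almost exchangeable subsequence -/

lemma exists_ultralimit (U : Ultrafilter ℕ) (f : ℕ → ℝ) (hf : ∀ l, f l ∈ Set.Icc (0 : ℝ) 1) :
    ∃ c : ℝ, Tendsto f U (𝓝 c) := by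
  have h1 : ↑(U.map f) ≤ 𝓟 (Set.Icc (0 : ℝ) 1) := by
    rw [le_principal_iff]
    exact Ultrafilter.mem_map.2 (Filter.univ_mem' hf)
  obtain ⟨c, _, hc⟩ := isCompact_Icc.ultrafilter_le_nhds (U.map f) h1
  exact ⟨c, hc⟩

lemma exists_subseq (G : ℕ → ℕ → ℝ) (hG : ∀ k l, G k l ∈ Set.Icc (0 : ℝ) 1) :
    ∃ (n : ℕ → ℕ) (c : ℝ), StrictMono n ∧ c ∈ Set.Icc (0 : ℝ) 1 ∧
      ∀ k l, k < l → |G (n k) (n l) - c| ≤ 4 * (1 / 2) ^ k := by
  let U : Ultrafilter ℕ := hyperfilter ℕ
  have h1 : ∀ k, ∃ c : ℝ, Tendsto (G k) U (𝓝 c) := fun k => exists_ultralimit U (G k) (hG k)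
  choose d hd using h1
  have hd01 : ∀ k, d k ∈ Set.Icc (0 : ℝ) 1 := fun k =>
    isClosed_Icc.mem_of_tendsto (hd k) (Eventually.of_forall (hG k))
  obtain ⟨c, hc⟩ := exists_ultralimit U d hd01
  have hc01 : c ∈ Set.Icc (0 : ℝ) 1 :=
    isClosed_Icc.mem_of_tendsto hc (Eventually.of_forall hd01)
  have hstep : ∀ s : Finset ℕ, (∀ x ∈ s, True) → ∃ y, True ∧ ∀ x ∈ s,
      x < y ∧ |G x y - d x| ≤ (1 / 2) ^ x ∧ |d y - c| ≤ (1 / 2) ^ x := by
    intro s _
    have hev : ∀ᶠ y in (U : Filter ℕ), ∀ x ∈ s,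
        x < y ∧ |G x y - d x| ≤ (1 / 2) ^ x ∧ |d y - c| ≤ (1 / 2) ^ x := by
      rw [Filter.eventually_all_finset]
      intro x _
      have hpos : (0 : ℝ) < (1 / 2) ^ x := by positivity
      have e1 : ∀ᶠ y in (U : Filter ℕ), x < y :=
        (Nat.hyperfilter_le_atTop) (eventually_gt_atTop x)
      have e2 : ∀ᶠ y in (U : Filter ℕ), |G x y - d x| ≤ (1 / 2) ^ x := by
        filter_upwards [Metric.tendsto_nhds.1 (hd x) _ hpos] with y hy
        rw [Real.dist_eq] at hy
        exact hy.le
      have e3 : ∀ᶠ y in (U : Filter ℕ), |d y - c| ≤ (1 / 2) ^ x := by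
        filter_upwards [Metric.tendsto_nhds.1 hc _ hpos] with y hy
        rw [Real.dist_eq] at hy
        exact hy.le
      exact e1.and (e2.and e3)
    obtain ⟨y, hy⟩ := hev.exists
    exact ⟨y, trivial, hy⟩
  obtain ⟨n, _, hn⟩ := exists_seq_of_forall_finset_exists (fun _ : ℕ => True)
    (fun x y => x < y ∧ |G x y - d x| ≤ (1 / 2) ^ x ∧ |d y - c| ≤ (1 / 2) ^ x) hstep
  have hmono : StrictMono n := fun a b hab => (hn a b hab).1
  refine ⟨n, c, hmono, hc01, ?_⟩
  intro k l hkl
  have g1 := (hn k l hkl).2.1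
  have p1 : ((1 : ℝ) / 2) ^ n k ≤ (1 / 2) ^ k :=
    pow_le_pow_of_le_one (by norm_num) (by norm_num) hmono.le_apply
  rcases Nat.eq_zero_or_pos k with h0 | h0
  · subst h0
    have a1 := hG (n 0) (n l)
    rw [pow_zero, mul_one, abs_le]
    constructor <;> linarith [a1.1, a1.2, hc01.1, hc01.2]
  · obtain ⟨k', rfl⟩ : ∃ k', k = k' + 1 := ⟨k - 1, by omega⟩
    have g2 := (hn k' (k' + 1) (by omega)).2.2
    have p2 : ((1 : ℝ) / 2) ^ n k' ≤ (1 / 2) ^ k' :=
      pow_le_pow_of_le_one (by norm_num) (by norm_num) hmono.le_apply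
    have p3 : ((1 : ℝ) / 2) ^ (k' + 1) = (1 / 2) ^ k' / 2 := by
      rw [pow_succ]
      ring
    have p4 : (0 : ℝ) < (1 / 2) ^ k' := by positivity
    rw [p3] at p1 ⊢
    rw [abs_le] at *
    constructor <;> linarith [g1.1, g1.2, g2.1, g2.2]

/-! ### Second moments of differences of averages -/

/-- The weights of the difference of two averages. -/
noncomputable def wt (m m' k : ℕ) : ℝ := (if k < m then 1 / (m : ℝ) else 0) - 1 / (m' : ℝ)

lemma sum_wt {m m' : ℕ} (hm : 0 < m) (hmm : m ≤ m') : ∑ k ∈ Finset.range m', wt m m' k = 0 := by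
  unfold wt
  rw [Finset.sum_sub_distrib, ← Finset.sum_filter]
  have h1 : (Finset.range m').filter (fun k => k < m) = Finset.range m := by
    ext k
    simp only [Finset.mem_filter, Finset.mem_range]
    omega
  rw [h1]
  simp only [Finset.sum_const, Finset.card_range, nsmul_eq_mul]
  have : (m : ℝ) ≠ 0 := by positivity
  have : (m' : ℝ) ≠ 0 := by
    have : 0 < m' := by omega
    positivity
  field_simp
  ring

lemma abs_wt_le {m m' : ℕ} (hm : 0 < m) (hmm : m ≤ m') (k : ℕ) : |wt m m' k| ≤ 1 / (m : ℝ) := by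
  have h1 : (0 : ℝ) < m := by exact_mod_cast hm
  have h2 : (m : ℝ) ≤ m' := by exact_mod_cast hmm
  have h3 : 1 / (m' : ℝ) ≤ 1 / (m : ℝ) := one_div_le_one_div_of_le h1 h2
  have h4 : 0 < 1 / (m' : ℝ) := by
    have : (0 : ℝ) < m' := h1.trans_le h2
    positivity
  unfold wt
  rw [abs_le]
  split_ifs <;> constructor <;> linarith

lemma sum_abs_wt_le {m m' : ℕ} (hm : 0 < m) (hmm : m ≤ m') :
    ∑ k ∈ Finset.range m', |wt m m' k| ≤ 2 := by
  have h1 : (0 : ℝ) < m := by exact_mod_cast hm
  have h2 : (m : ℝ) ≤ m' := by exact_mod_cast hmm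
  have h0 : (0 : ℝ) < m' := h1.trans_le h2
  calc ∑ k ∈ Finset.range m', |wt m m' k|
      ≤ ∑ k ∈ Finset.range m', ((if k < m then 1 / (m : ℝ) else 0) + 1 / (m' : ℝ)) := by
        refine Finset.sum_le_sum fun k _ => ?_
        unfold wt
        refine (abs_sub _ _).trans (add_le_add ?_ ?_)
        · rw [abs_of_nonneg]
          split_ifs <;> positivity
        · rw [abs_of_nonneg]
          positivity
    _ = 2 := by
        rw [Finset.sum_add_distrib, ← Finset.sum_filter]
        have h3 : (Finset.range m').filter (fun k => k < m) = Finset.range m := by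
          ext k
          simp only [Finset.mem_filter, Finset.mem_range]
          omega
        rw [h3]
        simp only [Finset.sum_const, Finset.card_range, nsmul_eq_mul]
        field_simp
        norm_num

lemma quad_bound (G : ℕ → ℕ → ℝ) (hG : ∀ k l, G k l ∈ Set.Icc (0 : ℝ) 1)
    (hsymm : ∀ k l, G k l = G l k) (c : ℝ) (hc : c ∈ Set.Icc (0 : ℝ) 1)
    (h : ∀ k l, k < l → |G k l - c| ≤ 4 * (1 / 2) ^ k) {m m' : ℕ} (hm : 0 < m) (hmm : m ≤ m') :
    ∑ k ∈ Finset.range m', ∑ l ∈ Finset.range m', wt m m' k * wt m m' l * G k l ≤ 34 / m := by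
  have h1 : (0 : ℝ) < m := by exact_mod_cast hm
  have hpt : ∀ k l, |G k l - c| ≤
      4 * (1 / 2) ^ k + 4 * (1 / 2) ^ l + (if k = l then 1 else 0) := by
    intro k l
    have p1 : (0 : ℝ) < (1 / 2) ^ k := by positivity
    have p2 : (0 : ℝ) < (1 / 2) ^ l := by positivity
    rcases lt_trichotomy k l with hkl | hkl | hkl
    · rw [if_neg hkl.ne]
      have := h k l hkl
      linarith
    · rw [if_pos hkl]
      have : |G k l - c| ≤ 1 := by
        rw [abs_le]
        constructor <;> linarith [(hG k l).1, (hG k l).2, hc.1, hc.2]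
      linarith
    · rw [if_neg hkl.ne']
      have := h l k hkl
      rw [hsymm l k] at this
      linarith
  have hsplit : ∑ k ∈ Finset.range m', ∑ l ∈ Finset.range m', wt m m' k * wt m m' l * G k l =
      ∑ k ∈ Finset.range m', ∑ l ∈ Finset.range m', wt m m' k * wt m m' l * (G k l - c) := by
    have e1 : ∑ k ∈ Finset.range m', ∑ l ∈ Finset.range m', wt m m' k * wt m m' l * c = 0 := by
      have : ∀ k ∈ Finset.range m', ∑ l ∈ Finset.range m', wt m m' k * wt m m' l * c = 0 := by
        intro k _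
        have e2 : ∑ l ∈ Finset.range m', wt m m' k * wt m m' l * c =
            wt m m' k * c * ∑ l ∈ Finset.range m', wt m m' l := by
          rw [Finset.mul_sum]
          exact Finset.sum_congr rfl fun l _ => by ring
        rw [e2, sum_wt hm hmm, mul_zero]
      exact Finset.sum_eq_zero this
    rw [← sub_zero (∑ k ∈ Finset.range m', ∑ l ∈ Finset.range m', wt m m' k * wt m m' l * G k l),
      ← e1, ← Finset.sum_sub_distrib]
    refine Finset.sum_congr rfl fun k _ => ?_
    rw [← Finset.sum_sub_distrib]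
    exact Finset.sum_congr rfl fun l _ => by ring
  rw [hsplit]
  set W := ∑ k ∈ Finset.range m', |wt m m' k| with hW
  have hW2 : W ≤ 2 := sum_abs_wt_le hm hmm
  have hW0 : 0 ≤ W := Finset.sum_nonneg fun _ _ => abs_nonneg _
  have hgeo : ∑ k ∈ Finset.range m', |wt m m' k| * (1 / 2) ^ k ≤ 2 / m := by
    calc ∑ k ∈ Finset.range m', |wt m m' k| * (1 / 2) ^ k
        ≤ ∑ k ∈ Finset.range m', (1 / (m : ℝ)) * (1 / 2) ^ k := by
          refine Finset.sum_le_sum fun k _ => ?_
          exact mul_le_mul_of_nonneg_right (abs_wt_le hm hmm k) (by positivity)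
      _ = (1 / (m : ℝ)) * ∑ k ∈ Finset.range m', ((1 : ℝ) / 2) ^ k := by rw [Finset.mul_sum]
      _ ≤ (1 / (m : ℝ)) * 2 := by
          refine mul_le_mul_of_nonneg_left ?_ (by positivity)
          have := Summable.sum_le_tsum (Finset.range m') (fun i _ => by positivity)
            (summable_geometric_two)
          rw [tsum_geometric_two] at this
          exact this
      _ = 2 / m := by ring
  have hsq : ∑ k ∈ Finset.range m', |wt m m' k| * |wt m m' k| ≤ 2 / m := by
    calc ∑ k ∈ Finset.range m', |wt m m' k| * |wt m m' k|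
        ≤ ∑ k ∈ Finset.range m', (1 / (m : ℝ)) * |wt m m' k| := by
          refine Finset.sum_le_sum fun k _ => ?_
          exact mul_le_mul_of_nonneg_right (abs_wt_le hm hmm k) (abs_nonneg _)
      _ = (1 / (m : ℝ)) * W := by rw [Finset.mul_sum]
      _ ≤ (1 / (m : ℝ)) * 2 := mul_le_mul_of_nonneg_left hW2 (by positivity)
      _ = 2 / m := by ring
  calc ∑ k ∈ Finset.range m', ∑ l ∈ Finset.range m', wt m m' k * wt m m' l * (G k l - c)
      ≤ ∑ k ∈ Finset.range m', ∑ l ∈ Finset.range m', |wt m m' k| * |wt m m' l| *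
          (4 * (1 / 2) ^ k + 4 * (1 / 2) ^ l + (if k = l then 1 else 0)) := by
        refine Finset.sum_le_sum fun k _ => Finset.sum_le_sum fun l _ => ?_
        refine (le_abs_self _).trans ?_
        rw [abs_mul, abs_mul]
        exact mul_le_mul_of_nonneg_left (hpt k l) (by positivity)
    _ = 4 * ((∑ k ∈ Finset.range m', |wt m m' k| * (1 / 2) ^ k) * W) +
        4 * (W * (∑ l ∈ Finset.range m', |wt m m' l| * (1 / 2) ^ l)) +
        ∑ k ∈ Finset.range m', |wt m m' k| * |wt m m' k| := by
        have e : ∀ k ∈ Finset.range m', ∑ l ∈ Finset.range m', |wt m m' k| * |wt m m' l| *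
            (4 * (1 / 2) ^ k + 4 * (1 / 2) ^ l + (if k = l then 1 else 0)) =
            4 * (|wt m m' k| * (1 / 2) ^ k * W) +
            4 * (|wt m m' k| * (∑ l ∈ Finset.range m', |wt m m' l| * (1 / 2) ^ l)) +
            |wt m m' k| * |wt m m' k| := by
          intro k hk
          have e3 : ∑ l ∈ Finset.range m', (if k = l then |wt m m' k| * |wt m m' l| else 0) =
              |wt m m' k| * |wt m m' k| := by
            rw [Finset.sum_ite_eq, if_pos hk]
          rw [hW, ← e3, Finset.mul_sum, Finset.mul_sum, Finset.mul_sum, Finset.mul_sum,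
            ← Finset.sum_add_distrib, ← Finset.sum_add_distrib]
          refine Finset.sum_congr rfl fun l _ => ?_
          split_ifs <;> ring
        rw [Finset.sum_congr rfl e, Finset.sum_add_distrib, Finset.sum_add_distrib,
          ← Finset.mul_sum, ← Finset.mul_sum, ← Finset.sum_mul, ← Finset.sum_mul]
    _ ≤ 4 * ((2 / m) * 2) + 4 * (2 * (2 / m)) + 2 / m := by
        have g0 : 0 ≤ ∑ k ∈ Finset.range m', |wt m m' k| * (1 / 2) ^ k :=
          Finset.sum_nonneg fun _ _ => by positivity
        have g1 : (∑ k ∈ Finset.range m', |wt m m' k| * (1 / 2) ^ k) * W ≤ (2 / m) * 2 :=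
          mul_le_mul hgeo hW2 hW0 (by positivity)
        have g2 : W * (∑ k ∈ Finset.range m', |wt m m' k| * (1 / 2) ^ k) ≤ 2 * (2 / m) :=
          mul_le_mul hW2 hgeo g0 (by norm_num)
        linarith
    _ = 34 / m := by ring

/-! ### Random sets have deterministic sets of convergence -/

section random

set_option linter.unusedSectionVars false

variable {Ω : Type*} [MeasurableSpace Ω]

/-- `S` is a name for a set of natural numbers: a random subset of `ℕ`. -/
def IsSetName (S : Ω → Set ℕ) : Prop := ∀ n, MeasurableSet {z | n ∈ S z}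

/-- The indicator of the event `n ∈ S`. -/
noncomputable def ind (S : Ω → Set ℕ) (n : ℕ) (z : Ω) : ℝ :=
  Set.indicator (S z) (fun _ => (1 : ℝ)) n

lemma ind_eq (S : Ω → Set ℕ) (n : ℕ) :
    ind S n = Set.indicator {z | n ∈ S z} fun _ => (1 : ℝ) := by
  classical
  funext z
  unfold ind
  rw [Set.indicator_apply, Set.indicator_apply]
  rfl

lemma ind_mul (S : Ω → Set ℕ) (k l : ℕ) :
    (fun z => ind S k z * ind S l z) =
      Set.indicator ({z | k ∈ S z} ∩ {z | l ∈ S z}) fun _ => (1 : ℝ) := by
  classical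
  funext z
  unfold ind
  by_cases h1 : k ∈ S z <;> by_cases h2 : l ∈ S z <;> simp [h1, h2]

variable (P : Measure Ω) [IsProbabilityMeasure P]

/-- The joint probabilities. -/
noncomputable def joint (S : Ω → Set ℕ) (k l : ℕ) : ℝ := ∫ z, ind S k z * ind S l z ∂P

variable {S : Ω → Set ℕ} (hS : IsSetName S)

include hS in
lemma integrable_ind_mul (k l : ℕ) : Integrable (fun z => ind S k z * ind S l z) P := by
  rw [ind_mul]
  exact (integrable_const (1 : ℝ)).indicator ((hS k).inter (hS l))

include hS in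
lemma joint_mem (k l : ℕ) : joint P S k l ∈ Set.Icc (0 : ℝ) 1 := by
  unfold joint
  rw [ind_mul, integral_indicator_const _ ((hS k).inter (hS l)), smul_eq_mul, mul_one]
  exact ⟨measureReal_nonneg, measureReal_le_one⟩

lemma joint_symm (k l : ℕ) : joint P S k l = joint P S l k := by
  unfold joint
  congr 1
  funext z
  ring

include hS in
lemma measurable_avg (n : ℕ → ℕ) (m : ℕ) : Measurable fun z => avg n (S z) m := by
  unfold avg
  refine Measurable.div_const (Finset.measurable_sum _ fun k _ => ?_) _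
  have h := ind_eq S (n k)
  change Measurable (ind S (n k))
  rw [h]
  exact measurable_const.indicator (hS (n k))

lemma avg_sub_avg (n : ℕ → ℕ) {m m' : ℕ} (hmm : m ≤ m') (z : Ω) :
    avg n (S z) m - avg n (S z) m' =
      ∑ k ∈ Finset.range m', wt m m' k * ind S (n k) z := by
  have h1 : ∑ k ∈ Finset.range m, Set.indicator (S z) (fun _ => (1 : ℝ)) (n k) =
      ∑ k ∈ Finset.range m', (if k < m then ind S (n k) z else 0) := by
    rw [← Finset.sum_filter]
    have h3 : (Finset.range m').filter (fun k => k < m) = Finset.range m := by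
      ext k
      simp only [Finset.mem_filter, Finset.mem_range]
      omega
    rw [h3]
    rfl
  unfold avg
  rw [h1, Finset.sum_div, Finset.sum_div, ← Finset.sum_sub_distrib]
  refine Finset.sum_congr rfl fun k _ => ?_
  change _ - ind S (n k) z / (m' : ℝ) = _
  unfold wt
  split_ifs <;> ring

include hS in
lemma integral_sq (n : ℕ → ℕ) {m m' : ℕ} (hmm : m ≤ m') :
    Integrable (fun z => (avg n (S z) m - avg n (S z) m') ^ 2) P ∧
    ∫ z, (avg n (S z) m - avg n (S z) m') ^ 2 ∂P =
      ∑ k ∈ Finset.range m', ∑ l ∈ Finset.range m',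
        wt m m' k * wt m m' l * joint P S (n k) (n l) := by
  have h1 : (fun z => (avg n (S z) m - avg n (S z) m') ^ 2) =
      fun z => ∑ k ∈ Finset.range m', ∑ l ∈ Finset.range m',
        wt m m' k * wt m m' l * (ind S (n k) z * ind S (n l) z) := by
    funext z
    rw [avg_sub_avg n hmm z, pow_two, Finset.sum_mul_sum]
    refine Finset.sum_congr rfl fun k _ => Finset.sum_congr rfl fun l _ => ?_
    ring
  have hint : ∀ k l, Integrable
      (fun z => wt m m' k * wt m m' l * (ind S (n k) z * ind S (n l) z)) P := fun k l =>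
    (integrable_ind_mul P hS (n k) (n l)).const_mul _
  rw [h1]
  refine ⟨integrable_finsetSum _ fun k _ => integrable_finsetSum _ fun l _ => hint k l, ?_⟩
  rw [integral_finsetSum _ fun k _ => integrable_finsetSum _ fun l _ => hint k l]
  refine Finset.sum_congr rfl fun k _ => ?_
  rw [integral_finsetSum _ fun l _ => hint k l]
  refine Finset.sum_congr rfl fun l _ => ?_
  rw [integral_const_mul]
  rfl

include hS in
lemma ae_converges (n : ℕ → ℕ)
    (hb : ∀ m m', 0 < m → m ≤ m' →
      ∫ z, (avg n (S z) m - avg n (S z) m') ^ 2 ∂P ≤ 34 / m) :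
    ∀ᵐ z ∂P, ∃ L, Tendsto (fun j : ℕ => avg n (S z) ((j + 1) ^ 4)) atTop (𝓝 L) := by
  let D : ℕ → Ω → ℝ := fun j z => avg n (S z) ((j + 1) ^ 4) - avg n (S z) ((j + 1 + 1) ^ 4)
  have hD : ∀ j, Measurable (D j) := fun j =>
    (measurable_avg hS n _).sub (measurable_avg hS n _)
  have hle : ∀ j : ℕ, (j + 1) ^ 4 ≤ (j + 1 + 1) ^ 4 := fun j =>
    Nat.pow_le_pow_left (by omega) 4
  have hsq : ∀ j, Integrable (fun z => D j z ^ 2) P := fun j => (integral_sq P hS n (hle j)).1
  have hpt : ∀ j z, |D j z| ≤ (((j : ℝ) + 1) ^ 2 * D j z ^ 2 + (((j : ℝ) + 1) ^ 2)⁻¹) / 2 := by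
    intro j z
    have h2 : (0 : ℝ) < ((j : ℝ) + 1) ^ 2 := by positivity
    have h3 : 0 ≤ (((j : ℝ) + 1) * |D j z| - ((j : ℝ) + 1)⁻¹) ^ 2 := sq_nonneg _
    have h4 : (((j : ℝ) + 1) * |D j z| - ((j : ℝ) + 1)⁻¹) ^ 2 =
        ((j : ℝ) + 1) ^ 2 * D j z ^ 2 - 2 * |D j z| + (((j : ℝ) + 1) ^ 2)⁻¹ := by
      have : |D j z| ^ 2 = D j z ^ 2 := sq_abs _
      rw [sub_sq, mul_pow, this]
      field_simp
    linarith
  have hint : ∀ j, ∫⁻ z, ‖D j z‖ₑ ∂P ≤ ENNReal.ofReal (35 / 2 * (((j : ℝ) + 1) ^ 2)⁻¹) := by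
    intro j
    have h1 : ∫⁻ z, ‖D j z‖ₑ ∂P ≤ ∫⁻ z, ENNReal.ofReal
        ((((j : ℝ) + 1) ^ 2 * D j z ^ 2 + (((j : ℝ) + 1) ^ 2)⁻¹) / 2) ∂P := by
      refine lintegral_mono fun z => ?_
      rw [← ofReal_norm]
      exact ENNReal.ofReal_le_ofReal (hpt j z)
    refine h1.trans ?_
    have hi : Integrable (fun z =>
        (((j : ℝ) + 1) ^ 2 * D j z ^ 2 + (((j : ℝ) + 1) ^ 2)⁻¹) / 2) P :=
      (((hsq j).const_mul _).add (integrable_const _)).div_const _
    rw [← ofReal_integral_eq_lintegral_ofReal hi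
      (Eventually.of_forall fun z => by positivity)]
    apply ENNReal.ofReal_le_ofReal
    rw [integral_div, integral_add ((hsq j).const_mul _) (integrable_const _),
      integral_const_mul, integral_const]
    have hbj := hb ((j + 1) ^ 4) ((j + 1 + 1) ^ 4) (by positivity) (hle j)
    have h5 : ((j : ℝ) + 1) ^ 2 * ∫ z, D j z ^ 2 ∂P ≤ 34 * (((j : ℝ) + 1) ^ 2)⁻¹ := by
      calc ((j : ℝ) + 1) ^ 2 * ∫ z, D j z ^ 2 ∂P
          ≤ ((j : ℝ) + 1) ^ 2 * (34 / (((j + 1) ^ 4 : ℕ) : ℝ)) :=
            mul_le_mul_of_nonneg_left hbj (by positivity)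
        _ = 34 * (((j : ℝ) + 1) ^ 2)⁻¹ := by
            push_cast
            field_simp
    simp only [probReal_univ, smul_eq_mul, one_mul]
    linarith
  have hsum : Summable fun j : ℕ => 35 / 2 * (((j : ℝ) + 1) ^ 2)⁻¹ := by
    refine Summable.mul_left _ ?_
    have := (summable_nat_add_iff 1).2 (Real.summable_nat_pow_inv.2 (by norm_num : 1 < 2))
    simpa using this
  have hfin : ∫⁻ z, ∑' j, ‖D j z‖ₑ ∂P ≠ ⊤ := by
    rw [lintegral_tsum fun j => (hD j).enorm.aemeasurable]
    refine ne_top_of_le_ne_top ?_ (ENNReal.tsum_le_tsum hint)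
    rw [← ENNReal.ofReal_tsum_of_nonneg (fun j => by positivity) hsum]
    exact ENNReal.ofReal_ne_top
  have hae := ae_lt_top (Measurable.tsum fun j => (hD j).enorm) hfin
  filter_upwards [hae] with z hz
  have hs : Summable fun j => |D j z| := by
    have := ENNReal.summable_toReal hz.ne
    simpa using this
  have hcau : CauchySeq fun j : ℕ => avg n (S z) ((j + 1) ^ 4) := by
    refine cauchySeq_of_summable_dist ?_
    exact hs
  exact cauchySeq_tendsto_of_complete hcau

include hS in
/-- For every random set `S` of natural numbers there is an infinite set `B` such that almost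
surely `S` has a density in `B`. -/
theorem exists_deterministic : ∃ B : Set ℕ, B.Infinite ∧ ∀ᵐ z ∂P, NonOsc B (S z) := by
  obtain ⟨n, c, hn, hc, hG⟩ := exists_subseq (joint P S) (joint_mem P hS)
  refine ⟨Set.range n, Set.infinite_range_of_injective hn.injective, ?_⟩
  have hb : ∀ m m', 0 < m → m ≤ m' →
      ∫ z, (avg n (S z) m - avg n (S z) m') ^ 2 ∂P ≤ 34 / m := by
    intro m m' hm hmm
    rw [(integral_sq P hS n hmm).2]
    exact quad_bound (fun k l => joint P S (n k) (n l)) (fun k l => joint_mem P hS _ _)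
      (fun k l => joint_symm P _ _) c hc hG hm hmm
  filter_upwards [ae_converges P hS n hb] with z hz
  obtain ⟨L, hL⟩ := hz
  exact nonOsc_of_tendsto (tendsto_relDensity n hn (S z) L (avg_tendsto_of_subseq n (S z) L hL))

end random

/-! ### Null sets are avoided by fresh random reals -/

/-- The fair coin measure on `{0,1}^ℕ`: the product of the uniform measures on `{0,1}`. -/
noncomputable def coin : Measure (ℕ → Bool) :=
  Measure.infinitePi fun _ => (PMF.uniformOfFintype Bool).toMeasure

instance : IsProbabilityMeasure coin := by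
  unfold coin
  infer_instance

section fresh

variable {K : Type}

/-- Every measurable set of `(K → X) × Y` depends on countably many coordinates in `K`. -/
lemma exists_countable_support {X Y : Type} [MeasurableSpace X] [MeasurableSpace Y]
    (N : Set ((K → X) × Y)) (hN : MeasurableSet N) :
    ∃ C : Set K, C.Countable ∧ ∀ z z' : K → X, (∀ i ∈ C, z i = z' i) →
      ∀ y, (z, y) ∈ N ↔ (z', y) ∈ N := by
  let m : MeasurableSpace ((K → X) × Y) :=
    { MeasurableSet' := fun N => ∃ C : Set K, C.Countable ∧ ∀ z z' : K → X,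
        (∀ i ∈ C, z i = z' i) → ∀ y, (z, y) ∈ N ↔ (z', y) ∈ N
      measurableSet_empty := ⟨∅, Set.countable_empty, by simp⟩
      measurableSet_compl := by
        rintro N ⟨C, hC, h⟩
        exact ⟨C, hC, fun z z' hz y => not_congr (h z z' hz y)⟩
      measurableSet_iUnion := by
        intro f hf
        choose C hC h using hf
        refine ⟨⋃ i, C i, Set.countable_iUnion hC, fun z z' hz y => ?_⟩
        simp only [Set.mem_iUnion]
        exact exists_congr fun i => h i z z' (fun j hj => hz j (Set.mem_iUnion.2 ⟨i, hj⟩)) y }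
  have hle : (Prod.instMeasurableSpace : MeasurableSpace ((K → X) × Y)) ≤ m := by
    change (MeasurableSpace.pi : MeasurableSpace (K → X)).comap Prod.fst ⊔
      (inferInstance : MeasurableSpace Y).comap Prod.snd ≤ m
    refine sup_le ?_ ?_
    · rw [MeasurableSpace.comap_le_iff_le_map]
      refine iSup_le fun i => ?_
      rw [MeasurableSpace.comap_le_iff_le_map]
      intro A _
      exact ⟨{i}, Set.countable_singleton i, fun z z' hz y => by
        simp [hz i rfl]⟩
    · rw [MeasurableSpace.comap_le_iff_le_map]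
      intro A _
      exact ⟨∅, Set.countable_empty, fun z z' _ y => Iff.rfl⟩
  exact hle N hN

variable [DecidableEq K]

lemma map_update (b : K) :
    ((Measure.infinitePi fun _ : K => coin).prod coin).map
      (fun p : (K → ℕ → Bool) × (ℕ → Bool) => Function.update p.1 b p.2) =
    Measure.infinitePi fun _ : K => coin := by
  have hmeas : Measurable
      (fun p : (K → ℕ → Bool) × (ℕ → Bool) => Function.update p.1 b p.2) := by
    rw [measurable_pi_iff]
    intro i
    by_cases h : i = b
    · subst h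
      simpa using measurable_snd
    · have he : (fun p : (K → ℕ → Bool) × (ℕ → Bool) => Function.update p.1 b p.2 i) =
          fun p => p.1 i := by
        funext p
        rw [Function.update_of_ne h]
      rw [he]
      exact (measurable_pi_apply i).comp measurable_fst
  refine Measure.eq_infinitePi _ fun s t ht => ?_
  rw [Measure.map_apply hmeas (MeasurableSet.pi s.countable_toSet fun i _ => ht i)]
  have hpre : (fun p : (K → ℕ → Bool) × (ℕ → Bool) => Function.update p.1 b p.2) ⁻¹'
      (Set.pi s t) = (Set.pi (s.erase b : Finset K) t) ×ˢ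
        (if b ∈ s then t b else Set.univ) := by
    ext ⟨z, y⟩
    simp only [Set.mem_preimage, Set.mem_pi, Finset.mem_coe, Set.mem_prod, Finset.mem_erase]
    constructor
    · intro h
      refine ⟨fun i hi => ?_, ?_⟩
      · have := h i hi.2
        rwa [Function.update_of_ne hi.1] at this
      · split_ifs with hb
        · have := h b hb
          rwa [Function.update_self] at this
        · trivial
    · rintro ⟨h1, h2⟩ i hi
      by_cases hib : i = b
      · subst hib
        rw [Function.update_self]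
        rwa [if_pos hi] at h2
      · rw [Function.update_of_ne hib]
        exact h1 i ⟨hib, hi⟩
  rw [hpre, Measure.prod_prod, Measure.infinitePi_pi _ (fun i _ => ht i)]
  by_cases hb : b ∈ s
  · rw [if_pos hb, Finset.prod_erase_mul _ _ hb]
  · rw [if_neg hb, measure_univ, mul_one, Finset.erase_eq_of_notMem hb]

/-- A measurable set all of whose sections are null is avoided by a fresh coordinate. -/
lemma fresh_avoids (N : Set ((K → ℕ → Bool) × (ℕ → Bool))) (hN : MeasurableSet N)
    (hnull : ∀ᵐ z ∂(Measure.infinitePi fun _ : K => coin), coin {y | (z, y) ∈ N} = 0)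
    (C : Set K) (hC : ∀ z z' : K → ℕ → Bool, (∀ i ∈ C, z i = z' i) →
      ∀ y, (z, y) ∈ N ↔ (z', y) ∈ N) (b : K) (hb : b ∉ C) :
    ∀ᵐ z ∂(Measure.infinitePi fun _ : K => coin), (z, z b) ∉ N := by
  have hmeas : Measurable
      (fun p : (K → ℕ → Bool) × (ℕ → Bool) => Function.update p.1 b p.2) := by
    rw [measurable_pi_iff]
    intro i
    by_cases h : i = b
    · subst h
      simpa using measurable_snd
    · have he : (fun p : (K → ℕ → Bool) × (ℕ → Bool) => Function.update p.1 b p.2 i) =
          fun p => p.1 i := by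
        funext p
        rw [Function.update_of_ne h]
      rw [he]
      exact (measurable_pi_apply i).comp measurable_fst
  have hE : MeasurableSet {z : K → ℕ → Bool | (z, z b) ∈ N} := by
    have : Measurable fun z : K → ℕ → Bool => (z, z b) :=
      measurable_id.prodMk (measurable_pi_apply b)
    exact this hN
  have h1 : (Measure.infinitePi fun _ : K => coin) {z | (z, z b) ∈ N} = 0 := by
    rw [← map_update b, Measure.map_apply hmeas hE]
    have hpre : (fun p : (K → ℕ → Bool) × (ℕ → Bool) => Function.update p.1 b p.2) ⁻¹'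
        {z | (z, z b) ∈ N} = N := by
      ext ⟨z, y⟩
      simp only [Set.mem_preimage, Set.mem_ofPred_eq, Function.update_self]
      refine hC _ _ (fun i hi => ?_) y
      rw [Function.update_of_ne]
      rintro rfl
      exact hb hi
    rw [hpre, Measure.measure_prod_null hN]
    exact hnull
  rw [ae_iff]
  simpa using h1

end fresh

/-! ### The random extension

For a probability measure `P` on `Ω`, the random forcing of `P` has the measurable sets of positive
measure as conditions. A name for an element of a Polish space is a random variable, and a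
condition `B` forces a Borel property of names iff it holds almost everywhere on `B`. -/

section forcing

variable {Ω : Type} [MeasurableSpace Ω] (P : Measure Ω)

/-- The random forcing of `P` forces `𝔯_osc ≤ κ`: there is a family of at most `κ` names `R i` for
infinite subsets of `ω` such that for every name `S` for an infinite coinfinite subset of `ω`
densely many conditions `B` decide an index `i` and force that `d_{R i}(S)` does not oscillate. -/
def ForcesROscLe (κ : Cardinal.{0}) : Prop :=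
  ∃ (I : Type) (R : I → Ω → Set ℕ), #I ≤ κ ∧ (∀ i, IsSetName (R i)) ∧
    (∀ i, ∀ᵐ z ∂P, (R i z).Infinite) ∧
    ∀ S : Ω → Set ℕ, IsSetName S → (∀ᵐ z ∂P, (S z).Infinite ∧ (S z)ᶜ.Infinite) →
      ∀ A, MeasurableSet A → P A ≠ 0 →
        ∃ B ⊆ A, MeasurableSet B ∧ P B ≠ 0 ∧
          ∃ i, ∀ᵐ z ∂P.restrict B, NonOsc (R i z) (S z)

/-- The random forcing of `P` forces `cov(𝒩) > κ`: for every family of at most `κ` names `N i` for
null subsets of `{0,1}^ω` there is a name `x` for an element of `{0,1}^ω` which is forced not to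
be in any of them. -/
def ForcesCovNullGt (κ : Cardinal.{0}) : Prop :=
  ∀ (I : Type) (N : I → Set (Ω × (ℕ → Bool))), #I ≤ κ → (∀ i, MeasurableSet (N i)) →
    (∀ i, ∀ᵐ z ∂P, coin {y | (z, y) ∈ N i} = 0) →
    ∃ x : Ω → ℕ → Bool, Measurable x ∧ ∀ i, ∀ᵐ z ∂P, (z, x z) ∉ N i

end forcing

/-- The measure whose random forcing adds `K` random reals: the product of `K` copies of the fair
coin measure on `{0,1}^ω`. -/
noncomputable def randomMeasure (K : Type) : Measure (K → ℕ → Bool) :=
  Measure.infinitePi fun _ : K => coin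

instance (K : Type) : IsProbabilityMeasure (randomMeasure K) := by
  unfold randomMeasure
  infer_instance

lemma forcesROscLe {Ω : Type} [MeasurableSpace Ω] (P : Measure Ω) [IsProbabilityMeasure P] :
    ForcesROscLe P 𝔠 := by
  refine ⟨{R : Set ℕ // R.Infinite}, fun i _ => i.1, ?_, ?_, ?_, ?_⟩
  · calc #{R : Set ℕ // R.Infinite} ≤ #(Set ℕ) := Cardinal.mk_subtype_le _
      _ = 𝔠 := by simp
  · intro i n
    exact MeasurableSet.const _
  · intro i
    exact Eventually.of_forall fun _ => i.2
  · intro S hS _ A hA hPA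
    obtain ⟨B, hB, hae⟩ := exists_deterministic P hS
    exact ⟨A, subset_rfl, hA, hPA, ⟨B, hB⟩, ae_restrict_of_ae hae⟩

lemma forcesCovNullGt (K : Type) (hK : ℵ₀ < #K) (μ : Cardinal.{0}) (hμ : μ < #K) :
    ForcesCovNullGt (randomMeasure K) μ := by
  classical
  intro I N hI hN hnull
  choose C hC hCN using fun i => exists_countable_support (N i) (hN i)
  have hcard : #(⋃ i, C i) < #K := by
    calc #(⋃ i, C i) ≤ Cardinal.sum fun i => #(C i) := Cardinal.mk_iUnion_le_sum_mk
      _ ≤ Cardinal.sum fun _ : I => ℵ₀ :=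
          Cardinal.sum_le_sum _ _ fun i => Cardinal.le_aleph0_iff_set_countable.2 (hC i)
      _ = #I * ℵ₀ := by simp
      _ ≤ max (max #I ℵ₀) ℵ₀ := Cardinal.mul_le_max _ _
      _ < #K := by
          rw [max_lt_iff, max_lt_iff]
          exact ⟨⟨hI.trans_lt hμ, hK⟩, hK⟩
  have hne : (⋃ i, C i) ≠ Set.univ := by
    intro h
    rw [h, Cardinal.mk_univ] at hcard
    exact lt_irrefl _ hcard
  obtain ⟨b, hb⟩ := (Set.ne_univ_iff_exists_notMem _).1 hne
  refine ⟨fun z => z b, measurable_pi_apply b, fun i => ?_⟩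
  exact fresh_avoids (N i) (hN i) (hnull i) (C i) (hCN i) b
    fun h => hb (Set.mem_iUnion.2 ⟨i, h⟩)

/-- Adding more than `2^ω` random reals forces `𝔯_osc ≤ (2^ω)^V < cov(𝒩)`. -/
theorem result (K : Type) (hK : 𝔠 < #K) :
    ForcesROscLe (randomMeasure K) 𝔠 ∧ ∀ μ < #K, ForcesCovNullGt (randomMeasure K) μ :=
  ⟨forcesROscLe _, fun μ hμ => forcesCovNullGt K (Cardinal.aleph0_lt_continuum.trans hK) μ hμ⟩

end Pool.Agent.Results.MP_177d78_lc.RandomForcing
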